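import Pool.Agent.J4H71.SC.Nd

/-!
# Diagonal quadric bundles over products of lines (helper71)
-/

set_option autoImplicit false
set_option linter.unusedSectionVars false

namespace Pool.Agent.J4H71.SC

open Set Filter Topology Pool.Agent.H581R2 Pool.Agent.TH729.SQ

/-- closures of sets of values of rational functions, one set -/
lemma values_one {n κ m : Type} [Finite n] [Finite κ] [Finite m] {D : Set (n → ℚ)}
    (hD : SA (closure (rl D))) (p : m → MvPolynomial (n ⊕ κ) ℚ) (q : MvPolynomial (n ⊕ κ) ℚ) :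
    SA (closure {y : m → ℝ | ∃ (x : n → ℚ) (u : κ → ℚ), x ∈ D ∧
      MvPolynomial.eval (Sum.elim x u) q ≠ 0 ∧
      ∀ k, y k = ((MvPolynomial.eval (Sum.elim x u) (p k) /
        MvPolynomial.eval (Sum.elim x u) q : ℚ) : ℝ)}) := by
  have h := values_main (ι := Unit) (κ := κ) (n := n) (fun _ => D) (fun _ => hD) (m := m)
    (fun k => MvPolynomial.rename (Sum.map (fun i => ((), i)) id) (p k))
    (MvPolynomial.rename (Sum.map (fun i => ((), i)) id) q)
  have e : ∀ (x : Unit → n → ℚ) (u : κ → ℚ) (f : MvPolynomial (n ⊕ κ) ℚ),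
      MvPolynomial.eval (Sum.elim (fun r : Unit × n => x r.1 r.2) u)
        (MvPolynomial.rename (Sum.map (fun i => ((), i)) id) f) =
      MvPolynomial.eval (Sum.elim (x ()) u) f := by
    intro x u f
    rw [MvPolynomial.eval_rename]
    congr 2
    funext s
    rcases s with s | s <;> rfl
  simp only [e] at h
  convert h using 2
  ext y
  constructor
  · rintro ⟨x, u, hx, hq, hy⟩
    exact ⟨fun _ => x, u, fun _ => hx, hq, hy⟩
  · rintro ⟨x, u, hx, hq, hy⟩
    exact ⟨x (), u, hx (), hq, hy⟩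

section affine

variable {n k : ℕ} {m : Fin k → ℕ}

/-- the rational points of the affine diagonal quadric bundle; the polynomials `A l none i` are
the factors of the constant term, and `A l (some j) i` the factors of the coefficient of
`u_{l j}²` -/
def Aff (A : ∀ l : Fin k, Option (Fin (m l)) → Fin n → Polynomial ℚ) :
    Set ((Fin n ⊕ Σ l, Fin (m l)) → ℚ) :=
  {w | ∀ l, (∏ i, (A l none i).eval (w (Sum.inl i))) +
    ∑ j, (∏ i, (A l (some j) i).eval (w (Sum.inl i))) * w (Sum.inr ⟨l, j⟩) ^ 2 = 0}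

/-- the homogeneous version -/
def Hom (A : ∀ l : Fin k, Option (Fin (m l)) → Fin n → Polynomial ℚ) :
    Set (((Σ _ : Fin n, Fin 1) ⊕ Σ l, Option (Fin (m l))) → ℚ) :=
  {w | ∀ l, ∑ j, (∏ i, (A l j i).eval (w (Sum.inl ⟨i, 0⟩))) * w (Sum.inr ⟨l, j⟩) ^ 2 = 0}

lemma Hom_SA {F : Fin n → Polynomial ℚ} (hF : ∀ i, (F i).Separable) (hd : ∀ i, (F i).natDegree ≤ 4)
    (A : ∀ l : Fin k, Option (Fin (m l)) → Fin n → Polynomial ℚ)
    (hA : ∀ l j i, Adapted (F i) (A l j i)) : SA (closure (rl (Hom A))) := by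
  classical
  have h := Tot_SA (ι := Fin n) (Λ := Fin k) (κ := fun _ => Fin 1)
    (R := fun _ => Σ l : Fin k, Option (Fin (m l))) (μ := fun l => Option (Fin (m l)))
    (h := fun i r => one (A r.1 r.2 i)) (N := fun _ => univ) (T := univ)
    (fun i => line_adm (hF i) (hd i) _ fun r => hA r.1 r.2 i) (fun _ _ _ _ => mem_univ _)
    (fun _ _ => 1) (fun l j _ r => if r = ⟨l, j⟩ then 1 else 0)
  convert h using 3
  ext w
  simp only [Hom, Tot, mem_univ, implies_true, true_and, Set.mem_ofPred_eq]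
  refine forall_congr' fun l => ?_
  have e : ∀ j, cof (fun _ _ => 1) (fun l j _ r => if r = ⟨l, j⟩ then 1 else 0) l j
      (vq (fun i (r : Σ l : Fin k, Option (Fin (m l))) => one (A r.1 r.2 i)) (xs w)) =
      ∏ i, (A l j i).eval (w (Sum.inl ⟨i, 0⟩)) := by
    intro j
    rw [cof, one_mul]
    refine Finset.prod_congr rfl fun i _ => ?_
    rw [Finset.prod_eq_single ⟨l, j⟩]
    · simp only [if_true, pow_one]
      exact one_eval _ _
    · intro r _ hr
      rw [if_neg hr, pow_zero]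
    · intro h
      exact absurd (Finset.mem_univ _) h
  simp only [e]
  exact Iff.rfl

/-- **Affine diagonal quadric bundles over products of lines.** -/
theorem Aff_SA {F : Fin n → Polynomial ℚ} (hF : ∀ i, (F i).Separable) (hd : ∀ i, (F i).natDegree ≤ 4)
    (A : ∀ l : Fin k, Option (Fin (m l)) → Fin n → Polynomial ℚ)
    (hA : ∀ l j i, Adapted (F i) (A l j i)) : SA (closure (rl (Aff A))) := by
  classical
  set q : MvPolynomial (((Σ _ : Fin n, Fin 1) ⊕ Σ l, Option (Fin (m l))) ⊕ Empty) ℚ :=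
    ∏ l, MvPolynomial.X (Sum.inl (Sum.inr ⟨l, none⟩)) with hq
  set p : (Fin n ⊕ Σ l, Fin (m l)) →
      MvPolynomial (((Σ _ : Fin n, Fin 1) ⊕ Σ l, Option (Fin (m l))) ⊕ Empty) ℚ :=
    Sum.elim (fun i => MvPolynomial.X (Sum.inl (Sum.inl ⟨i, 0⟩)) * q)
      (fun s => MvPolynomial.X (Sum.inl (Sum.inr ⟨s.1, some s.2⟩)) *
        ∏ l ∈ Finset.univ.erase s.1, MvPolynomial.X (Sum.inl (Sum.inr ⟨l, none⟩))) with hp
  have h := values_one (Hom_SA hF hd A hA) p q
  convert h using 2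
  ext y
  have hqe : ∀ (x : (Σ _ : Fin n, Fin 1) ⊕ (Σ l, Option (Fin (m l))) → ℚ) (u : Empty → ℚ),
      MvPolynomial.eval (Sum.elim x u) q = ∏ l, x (Sum.inr ⟨l, none⟩) := by
    intro x u
    rw [hq, map_prod]
    simp
  have hpe1 : ∀ (x : (Σ _ : Fin n, Fin 1) ⊕ (Σ l, Option (Fin (m l))) → ℚ) (u : Empty → ℚ) (i : Fin n),
      MvPolynomial.eval (Sum.elim x u) (p (Sum.inl i)) =
        x (Sum.inl ⟨i, 0⟩) * MvPolynomial.eval (Sum.elim x u) q := by
    intro x u i
    rw [hp]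
    simp
  have hpe2 : ∀ (x : (Σ _ : Fin n, Fin 1) ⊕ (Σ l, Option (Fin (m l))) → ℚ) (u : Empty → ℚ)
      (s : Σ l, Fin (m l)),
      MvPolynomial.eval (Sum.elim x u) (p (Sum.inr s)) =
        x (Sum.inr ⟨s.1, some s.2⟩) * ∏ l ∈ Finset.univ.erase s.1, x (Sum.inr ⟨l, none⟩) := by
    intro x u s
    rw [hp]
    simp only [Sum.elim_inr, map_mul, map_prod, MvPolynomial.eval_X, Sum.elim_inl]
  constructor
  · rintro ⟨w, hw, rfl⟩
    set x : (Σ _ : Fin n, Fin 1) ⊕ (Σ l, Option (Fin (m l))) → ℚ :=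
      Sum.elim (fun s => w (Sum.inl s.1))
        (fun s => s.2.elim 1 fun j => w (Sum.inr ⟨s.1, j⟩)) with hx
    have hx1 : ∀ l, x (Sum.inr ⟨l, none⟩) = 1 := fun l => rfl
    have hq1 : MvPolynomial.eval (Sum.elim x (fun e : Empty => e.elim)) q = 1 := by
      rw [hqe]
      exact Finset.prod_eq_one fun l _ => hx1 l
    refine ⟨x, fun e => e.elim, ?_, ?_, ?_⟩
    · intro l
      have h1 := hw l
      rw [Fintype.sum_option]
      rw [hx1, one_pow, mul_one]
      exact h1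
    · rw [hq1]
      exact one_ne_zero
    · rintro (i | s)
      · rw [hpe1, hq1]
        simp [hx]
      · rw [hpe2, hq1, Finset.prod_eq_one fun l _ => hx1 l]
        simp [hx]
  · rintro ⟨x, u, hx, hq0, hy⟩
    rw [hqe] at hq0
    have hx0 : ∀ l, x (Sum.inr ⟨l, none⟩) ≠ 0 := fun l h0 =>
      hq0 (Finset.prod_eq_zero (Finset.mem_univ l) h0)
    refine ⟨Sum.elim (fun i => x (Sum.inl ⟨i, 0⟩))
      (fun s => x (Sum.inr ⟨s.1, some s.2⟩) / x (Sum.inr ⟨s.1, none⟩)), ?_, ?_⟩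
    · intro l
      have h1 := hx l
      rw [Fintype.sum_option] at h1
      have h2 : x (Sum.inr ⟨l, none⟩) ^ 2 ≠ 0 := pow_ne_zero 2 (hx0 l)
      simp only [Sum.elim_inl, Sum.elim_inr]
      apply (mul_eq_zero.1 (?_ : x (Sum.inr ⟨l, none⟩) ^ 2 * _ = 0)).resolve_left h2
      rw [mul_add, Finset.mul_sum, ← h1]
      congr 1
      · ring
      · refine Finset.sum_congr rfl fun j _ => ?_
        have := hx0 l
        field_simp
    · funext t
      rcases t with i | s
      · rw [hy, hpe1, hqe]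
        simp only [Sum.elim_inl]
        rw [mul_div_cancel_right₀ _ hq0]
      · rw [hy, hpe2, hqe, ← Finset.mul_prod_erase Finset.univ
          (fun l => x (Sum.inr ⟨l, none⟩)) (Finset.mem_univ s.1)]
        have h3 : ∏ l ∈ Finset.univ.erase s.1, x (Sum.inr ⟨l, none⟩) ≠ 0 :=
          Finset.prod_ne_zero_iff.2 fun l _ => hx0 l
        rw [mul_div_mul_right _ _ h3]
        rfl

end affine

/-- reindexing of the classical form -/
theorem SA.classical {ι : Type} [Finite ι] {S : Set (ι → ℝ)} (h : SA S) :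
    ∃ (m : ℕ) (P : Fin m → MvPolynomial ι ℚ) (G : Fin m → Finset (MvPolynomial ι ℚ)),
      S = {x : ι → ℝ | ∃ j : Fin m, (MvPolynomial.aeval x (P j) : ℝ) = 0 ∧
        ∀ g ∈ G j, (0 : ℝ) < MvPolynomial.aeval x g} := by
  classical
  have := Fintype.ofFinite ι
  let e : ι ≃ Fin (Fintype.card ι) := Fintype.equivFin ι
  have h1 : SA ((fun (v : Fin (Fintype.card ι) → ℝ) (i : ι) => v (e i)) ⁻¹' S) :=
    SA.preimage h fun k => PF.coord (e k)
  obtain ⟨m, P, G, hS⟩ := SA.frozen h1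
  refine ⟨m, fun j => MvPolynomial.rename e.symm (P j),
    fun j => (G j).image (MvPolynomial.rename e.symm), ?_⟩
  ext x
  have h2 : x ∈ S ↔ (fun i => x (e.symm i)) ∈
      ((fun (v : Fin (Fintype.card ι) → ℝ) (i : ι) => v (e i)) ⁻¹' S) := by
    simp
  rw [h2, hS]
  simp only [Set.mem_ofPred_eq, Finset.mem_image, forall_exists_index, and_imp,
    forall_apply_eq_imp_iff₂, MvPolynomial.aeval_rename]
  exact Iff.rfl

theorem SA.of_classical {ι : Type} {S : Set (ι → ℝ)}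
    (h : ∃ (m : ℕ) (P : Fin m → MvPolynomial ι ℚ) (G : Fin m → Finset (MvPolynomial ι ℚ)),
      S = {x : ι → ℝ | ∃ j : Fin m, (MvPolynomial.aeval x (P j) : ℝ) = 0 ∧
        ∀ g ∈ G j, (0 : ℝ) < MvPolynomial.aeval x g}) : SA S := by
  obtain ⟨m, P, G, rfl⟩ := h
  refine SAP.exists_fin fun j => SAP.and (SAP.eq_zero (PF.aeval (P j))) ?_
  exact SAP.forall_mem (G j) fun g _ => SAP.pos (PF.aeval g)

end Pool.Agent.J4H71.SC
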