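import Mathlib

/-!
# Rational zeros of diagonal quadratic forms (helper71)
-/

set_option autoImplicit false

namespace Pool.Agent.J4H71.SC

open Filter Topology

/-- equal square classes (of rational numbers; `0` is a class of its own) -/
def Sim (a b : ℚ) : Prop := ∃ r : ℚ, r ≠ 0 ∧ b = r ^ 2 * a

lemma Sim.refl (a : ℚ) : Sim a a := ⟨1, one_ne_zero, by ring⟩

lemma Sim.symm {a b : ℚ} (h : Sim a b) : Sim b a := by
  obtain ⟨r, hr, rfl⟩ := h
  exact ⟨r⁻¹, inv_ne_zero hr, by field_simp⟩

lemma Sim.trans {a b c : ℚ} (h : Sim a b) (h' : Sim b c) : Sim a c := by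
  obtain ⟨r, hr, rfl⟩ := h
  obtain ⟨s, hs, rfl⟩ := h'
  exact ⟨s * r, mul_ne_zero hs hr, by ring⟩

lemma Sim.mul {a b c d : ℚ} (h : Sim a b) (h' : Sim c d) : Sim (a * c) (b * d) := by
  obtain ⟨r, hr, rfl⟩ := h
  obtain ⟨s, hs, rfl⟩ := h'
  exact ⟨s * r, mul_ne_zero hs hr, by ring⟩

lemma Sim.pow {a b : ℚ} (h : Sim a b) (n : ℕ) : Sim (a ^ n) (b ^ n) := by
  obtain ⟨r, hr, rfl⟩ := h
  exact ⟨r ^ n, pow_ne_zero n hr, by ring⟩

lemma Sim.prod {α : Type*} (s : Finset α) {a b : α → ℚ} (h : ∀ i ∈ s, Sim (a i) (b i)) :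
    Sim (∏ i ∈ s, a i) (∏ i ∈ s, b i) := by
  classical
  induction s using Finset.induction_on with
  | empty => simpa using Sim.refl 1
  | insert i s hi ih =>
    rw [Finset.prod_insert hi, Finset.prod_insert hi]
    exact (h i (by simp)).mul (ih fun j hj => h j (by simp [hj]))

lemma Sim.eq_zero_iff {a b : ℚ} (h : Sim a b) : a = 0 ↔ b = 0 := by
  obtain ⟨r, hr, rfl⟩ := h
  simp [hr]

lemma Sim.ne_zero {a b : ℚ} (h : Sim a b) (ha : a ≠ 0) : b ≠ 0 := fun hb => ha (h.eq_zero_iff.2 hb)

/-- square classes of nonzero numbers -/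
lemma sim_iff {a b : ℚ} (ha : a ≠ 0) : Sim a b ↔ b ≠ 0 ∧ ∃ w : ℚ, w ^ 2 = a * b := by
  constructor
  · rintro ⟨r, hr, rfl⟩
    exact ⟨mul_ne_zero (pow_ne_zero 2 hr) ha, r * a, by ring⟩
  · rintro ⟨hb, w, hw⟩
    have hw0 : w ≠ 0 := by
      rintro rfl
      exact mul_ne_zero ha hb (by rw [← hw]; ring)
    refine ⟨w / a, div_ne_zero hw0 ha, ?_⟩
    rw [div_pow, hw]
    field_simp

lemma seq_rat (x : ℝ) : ∃ u : ℕ → ℚ, Tendsto (fun n => (u n : ℝ)) atTop (𝓝 x) := by
  have : x ∈ closure (Set.range (fun t : ℚ => (t : ℝ))) := Rat.denseRange_cast x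
  obtain ⟨v, hv, hv'⟩ := mem_closure_iff_seq_limit.1 this
  choose u hu using hv
  exact ⟨u, hv'.congr fun n => (hu n).symm⟩

variable {μ : Type*} [Fintype μ]

/-- rational zeros near real zeros, with a rational zero which is not orthogonal -/
lemma diag_near (b : μ → ℚ) (v : μ → ℝ) (hv : ∑ j, (b j : ℝ) * v j ^ 2 = 0)
    (p : μ → ℚ) (hp : ∑ j, b j * p j ^ 2 = 0) (hpv : ∑ j, (b j : ℝ) * p j * v j ≠ 0)
    {ε : ℝ} (hε : 0 < ε) :
    ∃ u : μ → ℚ, ∑ j, b j * u j ^ 2 = 0 ∧ ∀ j, |(u j : ℝ) - v j| < ε := by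
  choose z hz using fun j => seq_rat (v j)
  obtain ⟨t, ht⟩ := seq_rat (-1 / (2 * ∑ j, (b j : ℝ) * p j * v j))
  -- the form and the polar form at the approximations
  set q : ℕ → ℚ := fun n => ∑ j, b j * z j n ^ 2 with hq
  set B : ℕ → ℚ := fun n => ∑ j, b j * p j * z j n with hB
  have hql : Tendsto (fun n => (q n : ℝ)) atTop (𝓝 0) := by
    have h1 : Tendsto (fun n => ∑ j, (b j : ℝ) * (z j n : ℝ) ^ 2) atTop
        (𝓝 (∑ j, (b j : ℝ) * v j ^ 2)) :=
      tendsto_finsetSum _ fun j _ => ((hz j).pow 2).const_mul _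
    rw [hv] at h1
    refine h1.congr fun n => ?_
    rw [hq]
    push_cast
    rfl
  have hBl : Tendsto (fun n => (B n : ℝ)) atTop (𝓝 (∑ j, (b j : ℝ) * p j * v j)) := by
    have h1 : Tendsto (fun n => ∑ j, (b j : ℝ) * p j * (z j n : ℝ)) atTop
        (𝓝 (∑ j, (b j : ℝ) * p j * v j)) :=
      tendsto_finsetSum _ fun j _ => (hz j).const_mul _
    refine h1.congr fun n => ?_
    rw [hB]
    push_cast
    rfl
  set u : ℕ → μ → ℚ := fun n j => t n * (q n * p j - 2 * B n * z j n) with hu
  have hul : ∀ j, Tendsto (fun n => (u n j : ℝ)) atTop (𝓝 (v j)) := by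
    intro j
    have h1 : Tendsto (fun n => (t n : ℝ) * ((q n : ℝ) * p j - 2 * (B n : ℝ) * (z j n : ℝ))) atTop
        (𝓝 (-1 / (2 * ∑ j, (b j : ℝ) * p j * v j) * (0 * p j -
          2 * (∑ j, (b j : ℝ) * p j * v j) * v j))) :=
      ht.mul ((hql.mul_const _).sub ((hBl.const_mul 2).mul (hz j)))
    have e : -1 / (2 * ∑ j, (b j : ℝ) * p j * v j) * (0 * p j -
          2 * (∑ j, (b j : ℝ) * p j * v j) * v j) = v j := by
      field_simp
      ring
    rw [e] at h1
    refine h1.congr fun n => ?_
    rw [hu]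
    push_cast
    rfl
  have hev : ∀ᶠ n in atTop, ∀ j, |(u n j : ℝ) - v j| < ε := by
    rw [Filter.eventually_all]
    intro j
    have := (Metric.tendsto_nhds.1 (hul j)) ε hε
    filter_upwards [this] with n hn
    rwa [Real.dist_eq] at hn
  obtain ⟨n, hn⟩ := hev.exists
  refine ⟨u n, ?_, hn⟩
  have e1 : ∀ j, b j * u n j ^ 2 = t n ^ 2 * (q n ^ 2 * (b j * p j ^ 2) -
      4 * q n * B n * (b j * p j * z j n) + 4 * B n ^ 2 * (b j * z j n ^ 2)) := by
    intro j
    rw [hu]
    ring
  simp only [e1]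
  rw [← Finset.mul_sum, Finset.sum_add_distrib, Finset.sum_sub_distrib, ← Finset.mul_sum,
    ← Finset.mul_sum, ← Finset.mul_sum, hp]
  have e2 : (∑ j, b j * p j * z j n) = B n := rfl
  have e3 : (∑ j, b j * z j n ^ 2) = q n := rfl
  rw [e2, e3]
  ring

/-- **rational zeros near real zeros of a diagonal form** -/
theorem diag_dense (b : μ → ℚ) (v : μ → ℝ) (hv : ∑ j, (b j : ℝ) * v j ^ 2 = 0)
    (h : (∃ p : μ → ℚ, ∑ j, b j * p j ^ 2 = 0 ∧ ∃ j, b j * p j ≠ 0) ∨ ∀ j, (b j : ℝ) * v j = 0)
    {ε : ℝ} (hε : 0 < ε) :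
    ∃ u : μ → ℚ, ∑ j, b j * u j ^ 2 = 0 ∧ ∀ j, |(u j : ℝ) - v j| < ε := by
  classical
  by_cases h0 : ∀ j, (b j : ℝ) * v j = 0
  · have : ∀ j, ∃ u : ℚ, b j * u = 0 ∧ |(u : ℝ) - v j| < ε := by
      intro j
      by_cases hb : b j = 0
      · obtain ⟨q, h1, h2⟩ := exists_rat_btwn (show v j - ε < v j by linarith)
        refine ⟨q, by rw [hb, zero_mul], ?_⟩
        rw [abs_lt]
        constructor <;> linarith
      · have h1 : (b j : ℝ) ≠ 0 := by exact_mod_cast hb
        have h2 : v j = 0 := (mul_eq_zero.1 (h0 j)).resolve_left h1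
        exact ⟨0, by ring, by simpa [h2] using hε⟩
    choose u hu1 hu2 using this
    refine ⟨u, Finset.sum_eq_zero fun j _ => ?_, hu2⟩
    have : b j * u j ^ 2 = b j * u j * u j := by ring
    rw [this, hu1, zero_mul]
  obtain ⟨p, hp, i, hi⟩ := h.resolve_right h0
  by_cases hpv : ∑ j, (b j : ℝ) * p j * v j = 0
  swap
  · exact diag_near b v hv p hp hpv hε
  push Not at h0
  obtain ⟨k, hk⟩ := h0
  -- a vector which is not orthogonal to both
  obtain ⟨z, hz1, hz2⟩ : ∃ z : μ → ℚ, ∑ j, b j * p j * z j ≠ 0 ∧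
      ∑ j, (b j : ℝ) * z j * v j ≠ 0 := by
    by_cases hiv : (b i : ℝ) * v i = 0
    · by_cases hkp : b k * p k = 0
      · refine ⟨Pi.single i 1 + Pi.single k 1, ?_, ?_⟩
        · have hik : i ≠ k := by
            rintro rfl
            exact hi hkp
          have : ∀ j, b j * p j * ((Pi.single i 1 + Pi.single k 1 : μ → ℚ) j) =
              (if j = i then b i * p i else 0) + if j = k then b k * p k else 0 := by
            intro j
            simp only [Pi.add_apply, Pi.single_apply]
            split_ifs with h1 h2 h2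
            · exact absurd (h1.symm.trans h2) hik
            · subst h1; ring
            · subst h2; ring
            · ring
          simp only [this, Finset.sum_add_distrib, Finset.sum_ite_eq', Finset.mem_univ, if_true]
          rw [hkp, add_zero]
          exact hi
        · have hik : i ≠ k := by
            rintro rfl
            exact hi hkp
          have : ∀ j, (b j : ℝ) * (((Pi.single i 1 + Pi.single k 1 : μ → ℚ) j : ℚ) : ℝ) * v j =
              (if j = i then (b i : ℝ) * v i else 0) + if j = k then (b k : ℝ) * v k else 0 := by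
            intro j
            simp only [Pi.add_apply, Pi.single_apply]
            split_ifs with h1 h2 h2
            · exact absurd (h1.symm.trans h2) hik
            · subst h1; push_cast; ring
            · subst h2; push_cast; ring
            · push_cast; ring
          simp only [this, Finset.sum_add_distrib, Finset.sum_ite_eq', Finset.mem_univ, if_true]
          rw [hiv, zero_add]
          exact hk
      · refine ⟨Pi.single k 1, ?_, ?_⟩
        · have : ∀ j, b j * p j * ((Pi.single k 1 : μ → ℚ) j) =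
              if j = k then b k * p k else 0 := by
            intro j
            simp only [Pi.single_apply]
            split_ifs with h1
            · subst h1; ring
            · ring
          simp only [this, Finset.sum_ite_eq', Finset.mem_univ, if_true]
          exact hkp
        · have : ∀ j, (b j : ℝ) * (((Pi.single k 1 : μ → ℚ) j : ℚ) : ℝ) * v j =
              if j = k then (b k : ℝ) * v k else 0 := by
            intro j
            simp only [Pi.single_apply]
            split_ifs with h1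
            · subst h1; push_cast; ring
            · push_cast; ring
          simp only [this, Finset.sum_ite_eq', Finset.mem_univ, if_true]
          exact hk
    · refine ⟨Pi.single i 1, ?_, ?_⟩
      · have : ∀ j, b j * p j * ((Pi.single i 1 : μ → ℚ) j) =
            if j = i then b i * p i else 0 := by
          intro j
          simp only [Pi.single_apply]
          split_ifs with h1
          · subst h1; ring
          · ring
        simp only [this, Finset.sum_ite_eq', Finset.mem_univ, if_true]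
        exact hi
      · have : ∀ j, (b j : ℝ) * (((Pi.single i 1 : μ → ℚ) j : ℚ) : ℝ) * v j =
            if j = i then (b i : ℝ) * v i else 0 := by
          intro j
          simp only [Pi.single_apply]
          split_ifs with h1
          · subst h1; push_cast; ring
          · push_cast; ring
        simp only [this, Finset.sum_ite_eq', Finset.mem_univ, if_true]
        exact hiv
  -- the reflected zero
  set Q : ℚ := ∑ j, b j * z j ^ 2 with hQ
  set B : ℚ := ∑ j, b j * p j * z j with hB
  refine diag_near b v hv (fun j => Q * p j - 2 * B * z j) ?_ ?_ hε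
  · have e1 : ∀ j, b j * (Q * p j - 2 * B * z j) ^ 2 = Q ^ 2 * (b j * p j ^ 2) -
        4 * Q * B * (b j * p j * z j) + 4 * B ^ 2 * (b j * z j ^ 2) := by
      intro j
      ring
    simp only [e1]
    rw [Finset.sum_add_distrib, Finset.sum_sub_distrib, ← Finset.mul_sum,
      ← Finset.mul_sum, ← Finset.mul_sum, hp, ← hB, ← hQ]
    ring
  · have e1 : ∀ j, (b j : ℝ) * ((Q * p j - 2 * B * z j : ℚ) : ℝ) * v j =
        Q * ((b j : ℝ) * p j * v j) - 2 * B * ((b j : ℝ) * z j * v j) := by
      intro j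
      push_cast
      ring
    simp only [e1]
    rw [Finset.sum_sub_distrib, ← Finset.mul_sum, ← Finset.mul_sum, hpv]
    have hBR : (B : ℝ) ≠ 0 := by exact_mod_cast hz1
    intro hc
    apply mul_ne_zero (mul_ne_zero two_ne_zero hBR) hz2
    linarith

end Pool.Agent.J4H71.SC
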