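import Pool.Agent.Y720.MZ.Tw
import Pool.Agent.Y718.RD
import Pool.Agent.J4H71.SC.Diag

/-!
# Fine square classes on the double covers of the line with four branch points (helper71)
-/

set_option autoImplicit false
set_option linter.unusedSectionVars false

namespace Pool.Agent.J4H71.SC

open Set Filter Topology Pool.Agent.Y720.MZ Pool.Agent.Y718.X

section alg

variable {K : Type*} [Field K] [CharZero K]

/-- the abscissa of a double point -/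
lemma dbl_sq [DecidableEq K] {a b c : K} (S : Pt a b c) {x y : K}
    {h : (cv a b c).toAffine.Nonsingular x y} (hS : (2 : ℕ) • S = .some x y h) {ε : K}
    (hε : ε ^ 3 + a * ε ^ 2 + b * ε + c = 0) : ∃ s : K, x - ε = s ^ 2 := by
  rw [two_nsmul] at hS
  rcases S with _ | ⟨x', y', h'⟩
  · exfalso
    have h0 : (WeierstrassCurve.Affine.Point.zero : Pt a b c) + WeierstrassCurve.Affine.Point.zero
      = 0 := add_zero (0 : Pt a b c)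
    rw [h0] at hS
    exact absurd hS.symm (WeierstrassCurve.Affine.Point.some_ne_zero h)
  · by_cases hy : 2 * y' = 0
    · rw [dbl_zero h' hy] at hS
      exact absurd hS.symm (WeierstrassCurve.Affine.Point.some_ne_zero h)
    · obtain ⟨h'', e⟩ := dbl_mk h' hy (ℓ := (3 * x' ^ 2 + 2 * a * x' + b) / (2 * y'))
        (div_mul_cancel₀ _ hy)
      rw [e] at hS
      have hx : ((3 * x' ^ 2 + 2 * a * x' + b) / (2 * y')) ^ 2 - a - x' - x' = x := by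
        injection hS
      have hy2 : y' ^ 2 = x' ^ 3 + a * x' ^ 2 + b * x' + c := (cv_ns.1 h').1
      refine ⟨(x' ^ 2 - 2 * ε * x' - 2 * ε ^ 2 - 2 * a * ε - b) / (2 * y'), ?_⟩
      rw [← hx]
      have hy' : y' ≠ 0 := fun h0 => hy (by rw [h0, mul_zero])
      have hc : c = -(ε ^ 3 + a * ε ^ 2 + b * ε) := by linear_combination hε
      field_simp
      rw [hc] at hy2
      linear_combination (-4 * (a + x' + x' + ε)) * hy2

/-- the identity for the fine classes -/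
lemma fine_id {w a0 a1 a2 b0 b1 b2 x t Y : K} (hw : w ^ 2 = a0 * b0)
    (hY : 2 * w * (Y + w) = t * (t * x - (a0 * b1 + a1 * b0)))
    (hY2 : Y ^ 2 = (a0 + a1 * t + a2 * t ^ 2) * (b0 + b1 * t + b2 * t ^ 2)) :
    a0 * (a0 + a1 * t + a2 * t ^ 2) * ((x + (a0 * b2 + a2 * b0)) * t ^ 2) =
      (w * (a0 + a1 * t + a2 * t ^ 2) + a0 * Y) ^ 2 := by
  have h1 : (x + (a0 * b2 + a2 * b0)) * t ^ 2 = 2 * w * Y + b0 * (a0 + a1 * t + a2 * t ^ 2) +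
      a0 * (b0 + b1 * t + b2 * t ^ 2) := by
    linear_combination -hY + 2 * hw
  rw [h1]
  linear_combination (-(a0 + a1 * t + a2 * t ^ 2) ^ 2) * hw - a0 ^ 2 * hY2

/-- the root of the resolvent -/
lemma res_root {w a0 a1 a2 b0 b1 b2 : K} (hw : w ^ 2 = a0 * b0) :
    (-(a0 * b2 + a2 * b0)) ^ 3 + (a0 * b2 + a1 * b1 + a2 * b0) * (-(a0 * b2 + a2 * b0)) ^ 2 +
      rb w (a0 * b1 + a1 * b0) (a1 * b2 + a2 * b1) (a2 * b2) * (-(a0 * b2 + a2 * b0)) +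
      rc w (a0 * b1 + a1 * b0) (a0 * b2 + a1 * b1 + a2 * b0) (a1 * b2 + a2 * b1) (a2 * b2) = 0 := by
  unfold rb rc
  rw [hw]
  ring

end alg

/-- the property of the abscissa of a point on `y² = w² + q₁ t + … + q₄ t⁴` in the same fine class
as `(0, w)` -/
def FinePt (w q₁ q₂ q₃ q₄ t : ℚ) : Prop :=
  (∃ Y : ℚ, Y ^ 2 = w ^ 2 + q₁ * t + q₂ * t ^ 2 + q₃ * t ^ 3 + q₄ * t ^ 4) ∧
  ∀ a0 a1 a2 b0 b1 b2 : ℚ, w ^ 2 = a0 * b0 → q₁ = a0 * b1 + a1 * b0 →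
    q₂ = a0 * b2 + a1 * b1 + a2 * b0 → q₃ = a1 * b2 + a2 * b1 → q₄ = a2 * b2 →
    w ^ 2 + q₁ * t + q₂ * t ^ 2 + q₃ * t ^ 3 + q₄ * t ^ 4 ≠ 0 →
    Sim a0 (a0 + a1 * t + a2 * t ^ 2)

lemma finePt_of {w q₁ q₂ q₃ q₄ t x y : ℚ} (hw : w ≠ 0) (hy : y ≠ 0)
    (h : y ^ 2 = x ^ 3 + q₂ * x ^ 2 + rb w q₁ q₃ q₄ * x + rc w q₁ q₂ q₃ q₄)
    (hx : ∀ ε : ℚ, ε ^ 3 + q₂ * ε ^ 2 + rb w q₁ q₃ q₄ * ε + rc w q₁ q₂ q₃ q₄ = 0 →
      ∃ s : ℚ, x - ε = s ^ 2)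
    (hd : 2 * w * y - q₁ * x - 2 * w ^ 2 * q₃ ≠ 0) (ht0 : t ≠ 0)
    (ht : t = (4 * w ^ 2 * (x + q₂) - q₁ ^ 2) / (2 * w * y - q₁ * x - 2 * w ^ 2 * q₃)) :
    FinePt w q₁ q₂ q₃ q₄ t := by
  have h1 := to_quartic hw h hd ht
  set Y := -w + t * (t * x - q₁) / (2 * w) with hY
  refine ⟨⟨Y, h1⟩, ?_⟩
  intro a0 a1 a2 b0 b1 b2 e0 e1 e2 e3 e4 hne
  subst e1 e2 e3 e4
  have hfac : w ^ 2 + (a0 * b1 + a1 * b0) * t + (a0 * b2 + a1 * b1 + a2 * b0) * t ^ 2 +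
      (a1 * b2 + a2 * b1) * t ^ 3 + a2 * b2 * t ^ 4 =
      (a0 + a1 * t + a2 * t ^ 2) * (b0 + b1 * t + b2 * t ^ 2) := by
    rw [e0]; ring
  rw [hfac] at h1 hne
  have ha0 : a0 ≠ 0 := by
    rintro rfl
    rw [zero_mul] at e0
    exact hw (pow_eq_zero_iff two_ne_zero |>.1 e0)
  have hh1 : a0 + a1 * t + a2 * t ^ 2 ≠ 0 := left_ne_zero_of_mul hne
  obtain ⟨s, hs⟩ := hx _ (res_root e0)
  have h2 : 2 * w * (Y + w) = t * (t * x - (a0 * b1 + a1 * b0)) := by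
    rw [hY]
    field_simp
    ring
  have h3 := fine_id e0 h2 h1
  have h4 : x + (a0 * b2 + a2 * b0) = s ^ 2 := by rw [← hs]; ring
  rw [h4] at h3
  rw [sim_iff ha0]
  refine ⟨hh1, ?_⟩
  by_cases hs0 : s = 0
  · -- the abscissa is a root of the resolvent
    exfalso
    have h5 : x = -(a0 * b2 + a2 * b0) := by
      rw [hs0] at h4
      linear_combination h4
    apply hy
    rw [h5, res_root e0] at h
    exact pow_eq_zero_iff two_ne_zero |>.1 h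
  · refine ⟨(w * (a0 + a1 * t + a2 * t ^ 2) + a0 * Y) / (s * t), ?_⟩
    rw [div_pow, ← h3]
    field_simp

section real

variable {w q₁ q₂ q₃ q₄ : ℚ}

/-- the quartic -/
def qr (w q₁ q₂ q₃ q₄ : ℚ) (s : ℝ) : ℝ := w ^ 2 + q₁ * s + q₂ * s ^ 2 + q₃ * s ^ 3 + q₄ * s ^ 4

/-- the abscissa on the resolvent -/
noncomputable def xr (w q₁ q₂ q₃ q₄ : ℚ) (s : ℝ) : ℝ :=
  (2 * |(w : ℝ)| * Real.sqrt (qr w q₁ q₂ q₃ q₄ s) + 2 * w ^ 2 + q₁ * s) / s ^ 2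

/-- the ordinate on the resolvent -/
noncomputable def yr (w q₁ q₂ q₃ q₄ : ℚ) (s : ℝ) : ℝ :=
  ((4 * w ^ 2 * (xr w q₁ q₂ q₃ q₄ s + q₂) - q₁ ^ 2) / s + q₁ * xr w q₁ q₂ q₃ q₄ s +
    2 * w ^ 2 * q₃) / (2 * w)

lemma xr_eq {s : ℝ} (hs : s ≠ 0) (hq : 0 ≤ qr w q₁ q₂ q₃ q₄ s) :
    s ^ 2 * (xr w q₁ q₂ q₃ q₄ s ^ 2 - 4 * w ^ 2 * q₄) -
      2 * s * (q₁ * xr w q₁ q₂ q₃ q₄ s + 2 * w ^ 2 * q₃) -
      (4 * w ^ 2 * (xr w q₁ q₂ q₃ q₄ s + q₂) - q₁ ^ 2) = 0 := by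
  set x := xr w q₁ q₂ q₃ q₄ s with hx
  have h1 : x * s ^ 2 = 2 * |(w : ℝ)| * Real.sqrt (qr w q₁ q₂ q₃ q₄ s) + 2 * w ^ 2 + q₁ * s := by
    rw [hx, xr]
    field_simp
  have h2 := Real.sq_sqrt hq
  have h3 : |(w : ℝ)| ^ 2 = (w : ℝ) ^ 2 := sq_abs _
  have h4 : (x * s ^ 2 - 2 * w ^ 2 - q₁ * s) ^ 2 = 4 * (w : ℝ) ^ 2 * qr w q₁ q₂ q₃ q₄ s := by
    rw [h1]
    calc (2 * |(w : ℝ)| * Real.sqrt (qr w q₁ q₂ q₃ q₄ s) + 2 * w ^ 2 + q₁ * s - 2 * w ^ 2 - q₁ * s) ^ 2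
        = 4 * |(w : ℝ)| ^ 2 * Real.sqrt (qr w q₁ q₂ q₃ q₄ s) ^ 2 := by ring
      _ = _ := by rw [h2, h3]
  apply (mul_eq_zero.1 (?_ : s ^ 2 * _ = 0)).resolve_left (pow_ne_zero 2 hs)
  unfold qr at h4
  linear_combination h4

lemma yr_eq (hw : w ≠ 0) {s : ℝ} (hs : s ≠ 0) (hq : 0 ≤ qr w q₁ q₂ q₃ q₄ s) :
    yr w q₁ q₂ q₃ q₄ s ^ 2 = gg (q₂ : ℝ) (rb w q₁ q₃ q₄ : ℚ) (rc w q₁ q₂ q₃ q₄ : ℚ)
      (xr w q₁ q₂ q₃ q₄ s) := by
  have h1 := xr_eq hs hq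
  have hwR : (w : ℝ) ≠ 0 := by exact_mod_cast hw
  set x := xr w q₁ q₂ q₃ q₄ s with hx
  have h2 : yr w q₁ q₂ q₃ q₄ s * (2 * w * s) =
      (4 * w ^ 2 * (x + q₂) - q₁ ^ 2) + s * (q₁ * x + 2 * w ^ 2 * q₃) := by
    rw [yr, ← hx]
    field_simp
    ring
  have h3 : (2 * (w : ℝ) * s) ^ 2 ≠ 0 := by positivity
  apply mul_right_cancel₀ h3
  rw [← mul_pow, h2, gg, rb, rc]
  push_cast
  linear_combination (-(4 * w ^ 2 * (x + q₂) - q₁ ^ 2)) * h1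

lemma xr_large (hw : w ≠ 0) (x : ℝ) : ∃ δ : ℝ, 0 < δ ∧ ∀ s : ℝ, s ≠ 0 → |s| < δ →
    x < xr w q₁ q₂ q₃ q₄ s := by
  have hwR : (0 : ℝ) < (w : ℝ) ^ 2 := by
    have : (w : ℝ) ≠ 0 := by exact_mod_cast hw
    positivity
  refine ⟨min ((w : ℝ) ^ 2 / (|(q₁ : ℝ)| + 1)) (min 1 ((w : ℝ) ^ 2 / (|x| + 1))),
    by positivity, fun s hs hsd => ?_⟩
  have h1 : |s| < (w : ℝ) ^ 2 / (|(q₁ : ℝ)| + 1) := hsd.trans_le (min_le_left _ _)
  have h2 : |s| < 1 := hsd.trans_le ((min_le_right _ _).trans (min_le_left _ _))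
  have h3 : |s| < (w : ℝ) ^ 2 / (|x| + 1) := hsd.trans_le ((min_le_right _ _).trans (min_le_right _ _))
  rw [lt_div_iff₀ (by positivity)] at h1 h3
  have hs2 : 0 < s ^ 2 := by positivity
  rw [xr, lt_div_iff₀ hs2]
  have h4 : 0 ≤ 2 * |(w : ℝ)| * Real.sqrt (qr w q₁ q₂ q₃ q₄ s) := by positivity
  have h5 : -(|(q₁ : ℝ)| * |s|) ≤ q₁ * s := by
    rw [← abs_mul]
    exact neg_abs_le _
  have h6 : x * s ^ 2 ≤ |x| * |s| := by
    have : s ^ 2 ≤ |s| := by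
      rw [← sq_abs]
      nlinarith [abs_nonneg s]
    calc x * s ^ 2 ≤ |x| * s ^ 2 := mul_le_mul_of_nonneg_right (le_abs_self x) hs2.le
      _ ≤ |x| * |s| := mul_le_mul_of_nonneg_left this (abs_nonneg x)
  nlinarith [abs_nonneg s, abs_nonneg x]

lemma continuousOn_xr {A : Set ℝ} (hA : ∀ s ∈ A, s ≠ 0) :
    ContinuousOn (xr w q₁ q₂ q₃ q₄) A := by
  have h1 : Continuous (qr w q₁ q₂ q₃ q₄) := by unfold qr; fun_prop
  unfold xr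
  refine ContinuousOn.div ?_ (by fun_prop) fun s hs => pow_ne_zero 2 (hA s hs)
  exact (((continuous_const.mul (Real.continuous_sqrt.comp h1)).add continuous_const).add
    (continuous_const.mul continuous_id)).continuousOn

/-- the resolvent cubic is positive to the right of the abscissa -/
lemma gg_pos (hw : w ≠ 0) (hD : dsc q₂ (rb w q₁ q₃ q₄) (rc w q₁ q₂ q₃ q₄) ≠ 0) {s : ℝ} (hs : s ≠ 0)
    (hseg : ∀ u : ℝ, 0 ≤ u → u ≤ 1 → 0 < qr w q₁ q₂ q₃ q₄ (u * s)) {x : ℝ}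
    (hx : xr w q₁ q₂ q₃ q₄ s < x) :
    0 < gg (q₂ : ℝ) (rb w q₁ q₃ q₄ : ℚ) (rc w q₁ q₂ q₃ q₄ : ℚ) x := by
  -- nonnegativity
  have hnn : ∀ x : ℝ, xr w q₁ q₂ q₃ q₄ s < x →
      0 ≤ gg (q₂ : ℝ) (rb w q₁ q₃ q₄ : ℚ) (rc w q₁ q₂ q₃ q₄ : ℚ) x := by
    intro x hx
    obtain ⟨δ, hδ, hδ'⟩ := xr_large (q₁ := q₁) (q₂ := q₂) (q₃ := q₃) (q₄ := q₄) hw x
    have hsa : 0 < |s| := abs_pos.2 hs
    set u₀ : ℝ := min (1 / 2) (δ / (2 * |s|)) with hu₀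
    have hu0 : 0 < u₀ := by positivity
    have hu1 : u₀ ≤ 1 := (min_le_left _ _).trans (by norm_num)
    have hu2 : |u₀ * s| < δ := by
      rw [abs_mul, abs_of_pos hu0]
      have : u₀ ≤ δ / (2 * |s|) := min_le_right _ _
      rw [le_div_iff₀ (by positivity)] at this
      nlinarith
    have h1 := hδ' (u₀ * s) (mul_ne_zero hu0.ne' hs) hu2
    have hc : ContinuousOn (fun u : ℝ => xr w q₁ q₂ q₃ q₄ (u * s)) (Icc u₀ 1) := by
      refine (continuousOn_xr (A := {s | s ≠ 0}) fun s hs => hs).comp (by fun_prop) ?_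
      intro u hu
      exact mul_ne_zero (hu0.trans_le hu.1).ne' hs
    have h2 := intermediate_value_Icc' hu1 hc
    obtain ⟨u, hu, hux⟩ := h2 ⟨by simpa using hx.le, h1.le⟩
    have hu' : 0 < u := hu0.trans_le hu.1
    have h3 := yr_eq hw (mul_ne_zero hu'.ne' hs) (hseg u hu'.le hu.2).le
    simp only at hux
    rw [hux] at h3
    rw [← h3]
    positivity
  rcases (hnn x hx).lt_or_eq with h | h
  · exact h
  exfalso
  set a : ℝ := (q₂ : ℝ)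
  set b : ℝ := ((rb w q₁ q₃ q₄ : ℚ) : ℝ) with hb
  set c : ℝ := ((rc w q₁ q₂ q₃ q₄ : ℚ) : ℝ) with hc
  have hmin : IsLocalMin (gg a b c) x := by
    filter_upwards [lt_mem_nhds hx] with y hy
    rw [← h]
    exact hnn y hy
  have hder : HasDerivAt (gg a b c) (3 * x ^ 2 + 2 * a * x + b) x := by
    have h1 : HasDerivAt (fun y : ℝ => y ^ 3 + a * y ^ 2 + b * y + c)
        (3 * x ^ 2 + a * (2 * x) + b * 1 + 0) x := by
      have e3 : HasDerivAt (fun y : ℝ => y ^ 3) (3 * x ^ 2) x := by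
        simpa using hasDerivAt_pow 3 x
      have e2 : HasDerivAt (fun y : ℝ => y ^ 2) (2 * x) x := by
        simpa using hasDerivAt_pow 2 x
      exact ((e3.add (e2.const_mul a)).add ((hasDerivAt_id x).const_mul b)).add
        (hasDerivAt_const x c)
    have e : 3 * x ^ 2 + a * (2 * x) + b * 1 + 0 = 3 * x ^ 2 + 2 * a * x + b := by ring
    rw [e] at h1
    exact h1
  have h0 := hmin.hasDerivAt_eq_zero hder
  have h2 := dsc_root (a := a) (b := b) (c := c) (x := x) (by rw [h]; rfl) h0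
  apply hD
  have h3 : ((dsc q₂ (rb w q₁ q₃ q₄) (rc w q₁ q₂ q₃ q₄) : ℚ) : ℝ) = dsc a b c := by
    rw [dsc, dsc, hb, hc]
    push_cast
    ring
  rw [h2] at h3
  exact_mod_cast h3

/-- density away from one abscissa -/
lemma fine_dense_aux (hw : w ≠ 0) (hD : dsc q₂ (rb w q₁ q₃ q₄) (rc w q₁ q₂ q₃ q₄) ≠ 0)
    (hS : ∀ h, ∀ n : ℕ, n ≠ 0 → n • (.some (xs w q₁ q₂) (ys w q₁ q₂ q₃) h :
      Pt q₂ (rb w q₁ q₃ q₄) (rc w q₁ q₂ q₃ q₄)) ≠ 0) {s : ℝ} (hs : s ≠ 0)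
    (hseg : ∀ u : ℝ, 0 ≤ u → u ≤ 1 → 0 < qr w q₁ q₂ q₃ q₄ (u * s))
    (hN : 4 * (w : ℝ) ^ 2 * (xr w q₁ q₂ q₃ q₄ s + q₂) - q₁ ^ 2 ≠ 0) {ε : ℝ} (hε : 0 < ε) :
    ∃ t : ℚ, |(t : ℝ) - s| < ε ∧ FinePt w q₁ q₂ q₃ q₄ t := by
  have hwR : (w : ℝ) ≠ 0 := by exact_mod_cast hw
  have hns := ns_of_dsc hD (s_eqn (q₁ := q₁) (q₂ := q₂) (q₃ := q₃) (q₄ := q₄) hw)
  set D : Pt q₂ (rb w q₁ q₃ q₄) (rc w q₁ q₂ q₃ q₄) := .some (xs w q₁ q₂) (ys w q₁ q₂ q₃) hns with hDdef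
  have hSD : ∀ n : ℕ, n ≠ 0 → n • D ≠ 0 := hS hns
  set P : Pt q₂ (rb w q₁ q₃ q₄) (rc w q₁ q₂ q₃ q₄) := (2 : ℕ) • D with hP
  have hSP : ∀ n : ℕ, n ≠ 0 → n • P ≠ 0 := by
    intro n hn
    rw [hP, ← mul_nsmul']
    exact hSD _ (by omega)
  have hSPz : ∀ n : ℤ, n ≠ 0 → n • P ≠ 0 := by
    intro n hn h0
    have h1 : (n.natAbs) • P = 0 := by
      rcases Int.natAbs_eq n with h | h
      · rw [h, natCast_zsmul] at h0
        exact h0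
      · rw [h, neg_smul, neg_eq_zero, natCast_zsmul] at h0
        exact h0
    exact hSP _ (Int.natAbs_ne_zero.2 hn) h1
  have hqs : 0 < qr w q₁ q₂ q₃ q₄ s := by simpa using hseg 1 zero_le_one le_rfl
  have hnear : Near (Rat.castHom ℝ) P (xr w q₁ q₂ q₃ q₄ s) (yr w q₁ q₂ q₃ q₄ s) :=
    near_all hD hSP (fun x hx => gg_pos hw hD hs hseg hx) (yr_eq hw hs hqs.le)
  obtain ⟨n, x, y, h, hnP, hx, hy⟩ := near_seq hnear
  set xi := xr w q₁ q₂ q₃ q₄ s with hxi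
  set N : ℝ := 4 * (w : ℝ) ^ 2 * (xi + q₂) - q₁ ^ 2 with hNdef
  have hyr : 2 * w * yr w q₁ q₂ q₃ q₄ s - q₁ * xi - 2 * w ^ 2 * q₃ = N / s := by
    rw [yr, ← hxi]
    field_simp
    ring
  have hDl : Tendsto (fun k => 2 * (w : ℝ) * (y k : ℝ) - q₁ * (x k : ℝ) - 2 * w ^ 2 * q₃) atTop
      (𝓝 (N / s)) := by
    rw [← hyr]
    exact ((hy.const_mul _).sub (hx.const_mul _)).sub_const _
  have hNl : Tendsto (fun k => 4 * (w : ℝ) ^ 2 * ((x k : ℝ) + q₂) - q₁ ^ 2) atTop (𝓝 N) :=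
    ((hx.add_const _).const_mul _).sub_const _
  have hNs : N / s ≠ 0 := div_ne_zero hN hs
  have htl := hNl.div hDl hNs
  have e1 : N / (N / s) = s := by field_simp
  rw [e1] at htl
  have hev1 : ∀ᶠ k in atTop, 2 * w * y k - q₁ * x k - 2 * w ^ 2 * q₃ ≠ 0 := by
    filter_upwards [hDl.eventually_ne hNs] with k hk h0
    apply hk
    exact_mod_cast congrArg (fun r : ℚ => (r : ℝ)) h0
  have hev2 := (Metric.tendsto_nhds.1 htl) (min ε |s|) (lt_min hε (abs_pos.2 hs))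
  obtain ⟨k, hk1, hk2⟩ := (hev1.and hev2).exists
  set t : ℚ := (4 * w ^ 2 * (x k + q₂) - q₁ ^ 2) / (2 * w * y k - q₁ * x k - 2 * w ^ 2 * q₃) with ht
  have htR : (t : ℝ) = (4 * (w : ℝ) ^ 2 * ((x k : ℝ) + q₂) - q₁ ^ 2) /
      (2 * (w : ℝ) * (y k : ℝ) - q₁ * (x k : ℝ) - 2 * w ^ 2 * q₃) := by
    rw [ht]
    push_cast
    rfl
  have hts : |(t : ℝ) - s| < min ε |s| := by
    rw [htR]
    rw [Real.dist_eq] at hk2
    exact hk2
  have ht0 : t ≠ 0 := by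
    intro h0
    rw [h0] at hts
    have := hts.trans_le (min_le_right _ _)
    simp at this
  have hn0 : n k ≠ 0 := by
    intro h0
    have h1 := hnP k
    rw [h0, zero_smul] at h1
    exact absurd h1.symm (WeierstrassCurve.Affine.Point.some_ne_zero _)
  have hy0 : y k ≠ 0 := by
    intro h0
    have h1 : (n k + n k) • P = 0 := by
      rw [add_smul, hnP k]
      exact dbl_zero (h k) (by rw [h0, mul_zero])
    exact hSPz _ (by omega) h1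
  refine ⟨t, hts.trans_le (min_le_left _ _), finePt_of hw hy0 (cv_ns.1 (h k)).1 ?_ hk1 ht0 rfl⟩
  intro ε' hε'
  refine dbl_sq (n k • D) (h := h k) ?_ hε'
  rw [← hnP k, hP, ← natCast_zsmul, ← natCast_zsmul, smul_smul, smul_smul, mul_comm]

/-- **Density of the fine class in a component.** -/
theorem fine_dense (hw : w ≠ 0) (hD : dsc q₂ (rb w q₁ q₃ q₄) (rc w q₁ q₂ q₃ q₄) ≠ 0)
    (hS : ∀ h, ∀ n : ℕ, n ≠ 0 → n • (.some (xs w q₁ q₂) (ys w q₁ q₂ q₃) h :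
      Pt q₂ (rb w q₁ q₃ q₄) (rc w q₁ q₂ q₃ q₄)) ≠ 0) {s : ℝ} (hs : s ≠ 0)
    (hseg : ∀ u : ℝ, 0 ≤ u → u ≤ 1 → 0 < qr w q₁ q₂ q₃ q₄ (u * s)) {ε : ℝ} (hε : 0 < ε) :
    ∃ t : ℚ, |(t : ℝ) - s| < ε ∧ FinePt w q₁ q₂ q₃ q₄ t := by
  by_cases hN : 4 * (w : ℝ) ^ 2 * (xr w q₁ q₂ q₃ q₄ s + q₂) - q₁ ^ 2 = 0
  swap
  · exact fine_dense_aux hw hD hS hs hseg hN hε
  have hwR : (w : ℝ) ≠ 0 := by exact_mod_cast hw
  -- another parameter
  have hsa : 0 < |s| := abs_pos.2 hs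
  set δ : ℝ := min (1 / 2) (ε / (2 * |s|)) with hδ
  have hδ0 : 0 < δ := by positivity
  have hδ1 : δ ≤ 1 / 2 := min_le_left _ _
  have hδ2 : δ * |s| ≤ ε / 2 := by
    have : δ ≤ ε / (2 * |s|) := min_le_right _ _
    rw [le_div_iff₀ (by positivity)] at this
    nlinarith
  set s' : ℝ := (1 - δ) * s with hs'
  have hs'0 : s' ≠ 0 := mul_ne_zero (by linarith) hs
  have hseg' : ∀ u : ℝ, 0 ≤ u → u ≤ 1 → 0 < qr w q₁ q₂ q₃ q₄ (u * s') := by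
    intro u hu0 hu1
    rw [hs', ← mul_assoc]
    exact hseg _ (mul_nonneg hu0 (by linarith)) (by nlinarith)
  have hss : |s' - s| ≤ ε / 2 := by
    have : s' - s = -(δ * s) := by rw [hs']; ring
    rw [this, abs_neg, abs_mul, abs_of_pos hδ0]
    exact hδ2
  have hN' : 4 * (w : ℝ) ^ 2 * (xr w q₁ q₂ q₃ q₄ s' + q₂) - q₁ ^ 2 ≠ 0 := by
    intro h0
    have hx : xr w q₁ q₂ q₃ q₄ s' = xr w q₁ q₂ q₃ q₄ s := by
      have h1 : 4 * (w : ℝ) ^ 2 ≠ 0 := by positivity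
      apply mul_left_cancel₀ h1
      linear_combination h0 - hN
    have h1 := xr_eq (w := w) (q₁ := q₁) (q₂ := q₂) (q₃ := q₃) (q₄ := q₄) hs
      (by simpa using (hseg 1 zero_le_one le_rfl).le)
    have h2 := xr_eq (w := w) (q₁ := q₁) (q₂ := q₂) (q₃ := q₃) (q₄ := q₄) hs'0
      (by simpa using (hseg' 1 zero_le_one le_rfl).le)
    rw [hx] at h2
    rw [hN] at h1 h2
    set x := xr w q₁ q₂ q₃ q₄ s with hxdef
    have h3 : s * (x ^ 2 - 4 * w ^ 2 * q₄) = 2 * (q₁ * x + 2 * w ^ 2 * q₃) := by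
      apply mul_left_cancel₀ hs
      linear_combination h1
    have h4 : s' * (x ^ 2 - 4 * w ^ 2 * q₄) = 2 * (q₁ * x + 2 * w ^ 2 * q₃) := by
      apply mul_left_cancel₀ hs'0
      linear_combination h2
    have h5 : (s' - s) * (x ^ 2 - 4 * w ^ 2 * q₄) = 0 := by linear_combination h4 - h3
    have h6 : s' - s ≠ 0 := by
      have : s' - s = -(δ * s) := by rw [hs']; ring
      rw [this]
      exact neg_ne_zero.2 (mul_ne_zero hδ0.ne' hs)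
    have h7 : x ^ 2 - 4 * w ^ 2 * q₄ = 0 := (mul_eq_zero.1 h5).resolve_left h6
    have h8 : q₁ * x + 2 * w ^ 2 * q₃ = 0 := by
      rw [h7, mul_zero] at h3
      linarith
    -- the difference is a point of order two
    have h9 : x = (xs w q₁ q₂ : ℚ) := by
      rw [xs]
      push_cast
      field_simp
      linear_combination hN
    have h10 : ys w q₁ q₂ q₃ = 0 := by
      rw [ys]
      have : q₁ * xs w q₁ q₂ + 2 * w ^ 2 * q₃ = 0 := by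
        rw [h9] at h8
        exact_mod_cast h8
      rw [this, zero_div]
    have hns := ns_of_dsc hD (s_eqn (q₁ := q₁) (q₂ := q₂) (q₃ := q₃) (q₄ := q₄) hw)
    refine hS hns 2 two_ne_zero ?_
    rw [two_nsmul]
    exact dbl_zero hns (by rw [h10, mul_zero])
  obtain ⟨t, ht1, ht2⟩ := fine_dense_aux hw hD hS hs'0 hseg' hN' (half_pos hε)
  refine ⟨t, ?_, ht2⟩
  have := abs_sub_le (t : ℝ) s' s
  linarith

end real

end Pool.Agent.J4H71.SC
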