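import Pool.Agent.J4H71.SC.Prin
import Pool.Agent.J4H71.SC.Fine

/-!
# Lines with at most four branch points are admissible (helper71)
-/

set_option autoImplicit false
set_option linter.unusedSectionVars false

namespace Pool.Agent.J4H71.SC

open Set Filter Topology Pool.Agent.H581R2 Pool.Agent.TH729.SQ

section adm

variable {κ R : Type} [Finite κ]

lemma piece_singleton (h : R → MvPolynomial κ ℚ) (z : κ → ℚ) :
    Piece h {z} {fun i => (z i : ℝ)} := by
  refine ⟨?_, ?_, ?_, ?_⟩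
  · have := SA.finite_rat (Set.finite_singleton z)
    refine SAP.congr (q := fun x => x ∈ ({fun i => (z i : ℝ)} : Set (κ → ℝ))) this fun x => ?_
    simp only [mem_singleton_iff, exists_eq_left]
    exact funext_iff
  · rintro z' rfl
    rfl
  · intro r
    by_cases h0 : (MvPolynomial.aeval (fun i => (z i : ℝ)) (h r) : ℝ) = 0
    · right
      rintro x rfl
      exact h0
    · left
      rintro x rfl
      exact h0
  · rintro z' rfl x rfl hx
    rw [nhdsWithin_singleton]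
    exact hx

lemma adm_finite (h : R → MvPolynomial κ ℚ) {E : Set (κ → ℚ)} (hE : E.Finite) : Adm h E := by
  have : Finite (ULift.{0} E) := by
    have := hE.to_subtype
    infer_instance
  refine ⟨E, hE.to_subtype, fun e => {e.1}, fun e => {fun i => (e.1 i : ℝ)}, ?_, fun e =>
    piece_singleton h e.1⟩
  ext z
  simp

lemma Adm.union {h : R → MvPolynomial κ ℚ} {N N' : Set (κ → ℚ)} (H : Adm h N) (H' : Adm h N') :
    Adm h (N ∪ N') := by
  obtain ⟨A, hA, P, W, hN, hP⟩ := H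
  obtain ⟨A', hA', P', W', hN', hP'⟩ := H'
  refine ⟨A ⊕ A', inferInstance, Sum.elim P P', Sum.elim W W', ?_, ?_⟩
  · rw [hN, hN', iUnion_sumElim]
  · rintro (α | α)
    · exact hP α
    · exact hP' α

lemma Piece.adm {h : R → MvPolynomial κ ℚ} {N : Set (κ → ℚ)} {W : Set (κ → ℝ)}
    (H : Piece h N W) : Adm h N :=
  ⟨Unit, inferInstance, fun _ => N, fun _ => W, (Set.iUnion_const N).symm, fun _ => H⟩

end adm

section line

open Polynomial Pool.Agent.Y720.MZ

/-- the functions with odd multiplicities only at the roots of `F` (and at infinity) -/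
def Adapted (F p : ℚ[X]) : Prop :=
  ∃ (c : ℚ) (g q q' : ℚ[X]), p = C c * g ^ 2 * q ∧ F = q * q' ∧ (F.natDegree ≤ 3 ∨ Even q.natDegree)

lemma qpol_coeff {F : ℚ[X]} (hF : F.natDegree ≤ 4) :
    qpol (F.coeff 0) (F.coeff 1) (F.coeff 2) (F.coeff 3) (F.coeff 4) = F := by
  conv_rhs => rw [F.as_sum_range' 5 (by omega)]
  simp only [qpol, Finset.sum_range_succ, Finset.sum_range_zero, ← Polynomial.C_mul_X_pow_eq_monomial]
  simp

lemma eval_two {q : ℚ[X]} (hq : q.natDegree ≤ 2) (t u : ℚ) :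
    q.eval (t + u) = q.eval t + (q.coeff 1 + 2 * q.coeff 2 * t) * u + q.coeff 2 * u ^ 2 := by
  rw [Polynomial.eval_eq_sum_range' (Nat.lt_succ_of_le hq),
    Polynomial.eval_eq_sum_range' (Nat.lt_succ_of_le hq)]
  simp only [Finset.sum_range_succ, Finset.sum_range_zero]
  ring

lemma aeval_cast' (q : ℚ[X]) (u : ℚ) : aeval (u : ℝ) q = ((q.eval u : ℚ) : ℝ) := by
  have := Polynomial.aeval_algebraMap_apply_eq_algebraMap_eval (A := ℝ) u q
  simpa using this

/-- **The fine classes on a line with four branch points.** -/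
theorem line_fine {F : ℚ[X]} (hs : F.Separable) (hd : 3 ≤ F.natDegree) (hd' : F.natDegree ≤ 4) :
    ∃ T : Set ℚ, T.Finite ∧ ∀ t₀ ∉ T, F.eval t₀ ≠ 0 ∧ ∀ s : ℝ,
      (∀ u : ℝ, 0 ≤ u → u ≤ 1 → aeval (t₀ + u * (s - t₀)) F ≠ 0) → ∀ ε : ℝ, 0 < ε →
      ∃ t : ℚ, |(t : ℝ) - s| < ε ∧ F.eval t ≠ 0 ∧ ∀ p : ℚ[X], Adapted F p →
        p.eval t₀ ≠ 0 → p.eval t ≠ 0 → Sim (p.eval t₀) (p.eval t) := by
  classical
  set q₀ := F.coeff 0 with hq0
  set q₁ := F.coeff 1 with hq1
  set q₂ := F.coeff 2 with hq2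
  set q₃ := F.coeff 3 with hq3
  set q₄ := F.coeff 4 with hq4
  have hFq : qpol q₀ q₁ q₂ q₃ q₄ = F := qpol_coeff hd'
  have hdc : dc q₀ q₁ q₂ q₃ q₄ ≠ 0 := dc_ne_zero (by rw [hFq]; exact hs) (by rw [hFq]; exact hd)
  obtain ⟨Ξ, hΞ, htors⟩ := torsion_finite (K := ℚ) (a := q₂) (b := q₁ * q₃ - 4 * q₀ * q₄)
    (c := q₁ ^ 2 * q₄ + q₀ * q₃ ^ 2 - 4 * q₀ * q₂ * q₄) hdc
  have hPe : ∀ t, F.eval t = q₀ + q₁ * t + q₂ * t ^ 2 + q₃ * t ^ 3 + q₄ * t ^ 4 := by
    intro t
    rw [← hFq]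
    exact eval_qpol q₀ q₁ q₂ q₃ q₄ t
  have hPeR : ∀ t : ℝ, aeval t F = q₀ + q₁ * t + q₂ * t ^ 2 + q₃ * t ^ 3 + q₄ * t ^ 4 := by
    intro t
    rw [← hFq, qpol]
    simp
  have hP0 : F ≠ 0 := by
    intro h
    rw [h, natDegree_zero] at hd
    omega
  have hP1 : ∀ t, (derivative F).eval t = q₁ + 2 * q₂ * t + 3 * q₃ * t ^ 2 + 4 * q₄ * t ^ 3 := by
    intro t
    rw [← hFq]
    simp only [qpol, derivative_add, derivative_C_mul, derivative_C, derivative_X,
      derivative_X_pow, eval_add, eval_mul, eval_C, eval_pow, eval_X, eval_one, eval_zero]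
    push_cast
    ring
  -- the exceptional set
  set M : ℚ → ℚ[X] := fun ξ => C (q₂ + ξ) + C (2 * q₃) * X + C (4 * q₄) * X ^ 2 with hM
  have hMe : ∀ ξ t, (M ξ).eval t = (q₂ + 3 * q₃ * t + 6 * q₄ * t ^ 2) -
      (q₃ * t + 2 * q₄ * t ^ 2) + ξ := by
    intro ξ t
    simp only [hM, eval_add, eval_mul, eval_C, eval_X, eval_pow]
    ring
  have hfin : ∀ ξ : ℚ, {t : ℚ | (derivative F).eval t ^ 2 = 4 * F.eval t * (M ξ).eval t}.Finite := by
    intro ξ
    by_contra hinf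
    have e : derivative F ^ 2 = C 4 * F * M ξ := by
      apply eq_of_infinite_eval_eq
      refine Set.Infinite.mono ?_ hinf
      intro t ht
      change (derivative F ^ 2).eval t = (C 4 * F * M ξ).eval t
      rw [eval_pow, eval_mul, eval_mul, eval_C]
      exact ht
    have h1 : F ∣ derivative F ^ 2 := ⟨C 4 * M ξ, by rw [e]; ring⟩
    have h2 : IsCoprime F (derivative F) := hs
    have h3 : IsCoprime F (derivative F ^ 2) := h2.pow_right
    have h4 : IsUnit F := h3.isUnit_of_dvd' dvd_rfl h1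
    have h5 := natDegree_eq_zero_of_isUnit h4
    omega
  refine ⟨{t | F.eval t = 0} ∪ ⋃ ξ ∈ Ξ, {t : ℚ | (derivative F).eval t ^ 2 =
    4 * F.eval t * (M ξ).eval t}, ?_, ?_⟩
  · refine Set.Finite.union ?_ (hΞ.biUnion fun ξ _ => hfin ξ)
    exact (F.roots.toFinset.finite_toSet).subset fun t ht => by
      rw [Finset.mem_coe, Multiset.mem_toFinset, mem_roots hP0]
      exact ht
  intro t₀ ht₀
  rw [Set.mem_union, not_or, Set.mem_iUnion₂] at ht₀
  obtain ⟨ht1, ht2⟩ := ht₀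
  have hC0 : F.eval t₀ ≠ 0 := ht1
  refine ⟨hC0, ?_⟩
  intro s hseg ε hε
  -- the trivial case
  by_cases hs0 : s = t₀
  · refine ⟨t₀, by rw [hs0]; simpa using hε, hC0, fun p _ _ _ => Sim.refl _⟩
  set c := F.eval t₀ with hc
  set a1 := q₁ + 2 * q₂ * t₀ + 3 * q₃ * t₀ ^ 2 + 4 * q₄ * t₀ ^ 3 with ha1
  set a2 := q₂ + 3 * q₃ * t₀ + 6 * q₄ * t₀ ^ 2 with ha2
  set a3 := q₃ + 4 * q₄ * t₀ with ha3
  have hcq : c = q₀ + q₁ * t₀ + q₂ * t₀ ^ 2 + q₃ * t₀ ^ 3 + q₄ * t₀ ^ 4 := hPe t₀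
  -- the shifted quartic
  have hval : ∀ t : ℚ, c ^ 2 + (c * a1) * t + (c * a2) * t ^ 2 + (c * a3) * t ^ 3 +
      (c * q₄) * t ^ 4 = c * F.eval (t₀ + t) := by
    intro t
    rw [hPe, ha1, ha2, ha3]
    rw [show c ^ 2 = c * c by ring]
    conv_lhs => rw [show c * c = c * (q₀ + q₁ * t₀ + q₂ * t₀ ^ 2 + q₃ * t₀ ^ 3 + q₄ * t₀ ^ 4) by
      rw [← hcq]]
    ring
  have hvalR : ∀ t : ℝ, qr c (c * a1) (c * a2) (c * a3) (c * q₄) t = c * aeval (t₀ + t) F := by
    intro t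
    rw [qr, hPeR, ha1, ha2, ha3]
    have : (c : ℝ) ^ 2 = c * (q₀ + q₁ * t₀ + q₂ * t₀ ^ 2 + q₃ * t₀ ^ 3 + q₄ * t₀ ^ 4) := by
      have h1 : (c : ℝ) = q₀ + q₁ * t₀ + q₂ * t₀ ^ 2 + q₃ * t₀ ^ 3 + q₄ * t₀ ^ 4 := by
        exact_mod_cast congrArg (fun r : ℚ => (r : ℝ)) hcq
      rw [sq]
      nth_rewrite 2 [h1]
      ring
    rw [this]
    push_cast
    ring
  -- positivity on the segment
  have hpos : ∀ u : ℝ, 0 ≤ u → u ≤ 1 →
      0 < qr c (c * a1) (c * a2) (c * a3) (c * q₄) (u * (s - t₀)) := by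
    intro u hu0 hu1
    rw [hvalR]
    set φ : ℝ → ℝ := fun v => (c : ℝ) * aeval (t₀ + v * (s - t₀)) F with hφ
    have hφc : Continuous φ := by
      have : Continuous fun y : ℝ => aeval y F := by fun_prop
      exact continuous_const.mul (this.comp (by fun_prop))
    have hφ0 : 0 < φ 0 := by
      have : φ 0 = (c : ℝ) ^ 2 := by
        rw [hφ]
        simp only [zero_mul, add_zero]
        rw [aeval_cast', ← hc]
        ring
      rw [this]
      have : (c : ℝ) ≠ 0 := by exact_mod_cast hC0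
      positivity
    by_contra hcon
    push Not at hcon
    have h1 := intermediate_value_Icc' hu0 hφc.continuousOn
    obtain ⟨v, hv, hv0⟩ := h1 ⟨hcon, hφ0.le⟩
    have h2 := hseg v hv.1 (hv.2.trans hu1)
    rcases mul_eq_zero.1 hv0 with h3 | h3
    · exact hC0 (by exact_mod_cast h3)
    · exact h2 h3
  have hs' : s - t₀ ≠ 0 := sub_ne_zero.2 hs0
  -- avoid the roots
  obtain ⟨η, hη, hη'⟩ : ∃ η : ℝ, 0 < η ∧ ∀ y : ℝ, |y - s| < η → aeval y F ≠ 0 := by
    have h1 : aeval s F ≠ 0 := by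
      have := hseg 1 zero_le_one le_rfl
      simpa using this
    have hcont : Continuous fun y : ℝ => aeval y F := by fun_prop
    have := hcont.continuousAt.eventually_ne h1
    rw [Metric.eventually_nhds_iff] at this
    obtain ⟨η, hη, h⟩ := this
    exact ⟨η, hη, fun y hy => h (by rw [Real.dist_eq]; exact hy)⟩
  obtain ⟨t, ht, hfp⟩ := fine_dense (w := c) (q₁ := c * a1) (q₂ := c * a2) (q₃ := c * a3)
    (q₄ := c * q₄) hC0 (by
      have h1 := dq_eq c (c * a1) (c * a2) (c * a3) (c * q₄)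
      rw [dq] at h1
      rw [h1, sq, dc_smul]
      have h2 := dc_shift t₀ q₀ q₁ q₂ q₃ q₄
      have h3 : dc c a1 a2 a3 q₄ = dc q₀ q₁ q₂ q₃ q₄ := by
        rw [← h2]
        congr 1 <;> simp only [hcq, ha1, ha2, ha3] <;> ring
      rw [h3]
      exact mul_ne_zero (pow_ne_zero 6 hC0) hdc) (by
      intro h n hn
      refine htors c hC0 (q₃ * t₀ + 2 * q₄ * t₀ ^ 2) _ _ _ ?_ ?_ ?_ _ _ h ?_ n hn
      · rw [ha2]; ring
      · rw [rb, ← shift_b, ← hcq, ha1, ha3]
        ring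
      · rw [rc, ← shift_c, ← hcq, ha1, ha2, ha3]
        ring
      · intro hmem
        apply ht2
        refine ⟨_, hmem, ?_⟩
        change (derivative F).eval t₀ ^ 2 = 4 * F.eval t₀ * (M _).eval t₀
        rw [hMe, hP1, ← hc, Pool.Agent.Y720.MZ.xs, ← ha1, ← ha2]
        field_simp
        ring) hs' hpos (lt_min hε hη)
  have hts : |((t₀ + t : ℚ) : ℝ) - s| < min ε η := by
    push_cast
    have : (t₀ : ℝ) + t - s = t - (s - t₀) := by ring
    rw [this]
    exact ht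
  have hFt : F.eval (t₀ + t) ≠ 0 := by
    have := hη' _ (hts.trans_le (min_le_right _ _))
    rw [aeval_cast'] at this
    exact_mod_cast this
  refine ⟨t₀ + t, hts.trans_le (min_le_left _ _), hFt, ?_⟩
  rintro p ⟨k, g, q, q', rfl, hqq, hdeg⟩ hp0 hpt
  obtain ⟨⟨Y, hY⟩, hfine⟩ := hfp
  rw [hval] at hY
  have hSF : Sim c (F.eval (t₀ + t)) := (sim_iff hC0).2 ⟨hFt, Y, hY⟩
  simp only [eval_mul, eval_pow, eval_C] at hp0 hpt ⊢
  -- reduction to the divisor
  have hgt : g.eval (t₀ + t) ≠ 0 := by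
    intro h0
    apply hpt
    rw [h0]
    ring
  have hg0 : g.eval t₀ ≠ 0 := by
    intro h0
    apply hp0
    rw [h0]
    ring
  have hsq : ∀ a b : ℚ, a ≠ 0 → b ≠ 0 → Sim (a ^ 2) (b ^ 2) := fun a b ha hb =>
    ⟨b / a, div_ne_zero hb ha, by field_simp⟩
  refine ((Sim.refl k).mul (hsq _ _ hg0 hgt)).mul ?_
  -- degrees
  have hq0' : q ≠ 0 := by
    rintro rfl
    rw [zero_mul] at hqq
    exact hP0 hqq
  have hq0'' : q' ≠ 0 := by
    rintro rfl
    rw [mul_zero] at hqq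
    exact hP0 hqq
  have hdq : F.natDegree = q.natDegree + q'.natDegree := by
    rw [hqq, natDegree_mul hq0' hq0'']
  have hFe : ∀ t, F.eval t = q.eval t * q'.eval t := fun t => by rw [hqq, eval_mul]
  have hcc : c = q.eval t₀ * q'.eval t₀ := hFe t₀
  have hqt0' : q'.eval t₀ ≠ 0 := by
    intro h0
    apply hC0
    rw [hcc, h0, mul_zero]
  have hconst : ∀ r : ℚ[X], r.natDegree = 0 → ∀ a b, r.eval a = r.eval b := by
    intro r hr a b
    rw [eq_C_of_natDegree_eq_zero hr, eval_C, eval_C]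
  by_cases h0 : q.natDegree = 0
  · rw [hconst q h0 (t₀ + t) t₀]
    exact Sim.refl _
  by_cases h0' : q'.natDegree = 0
  · -- `q` is `F` up to a constant
    have h1 : Sim (q.eval t₀ * q'.eval t₀) (q.eval (t₀ + t) * q'.eval (t₀ + t)) := by
      rw [← hcc, ← hFe]
      exact hSF
    rw [hconst q' h0' (t₀ + t) t₀] at h1
    obtain ⟨ρ, hρ, h2⟩ := h1
    refine ⟨ρ, hρ, ?_⟩
    apply mul_right_cancel₀ hqt0'
    rw [h2]
    ring
  · have hd2 : q.natDegree ≤ 2 ∧ q'.natDegree ≤ 2 := by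
      rcases hdeg with h | h
      · constructor <;> omega
      · obtain ⟨m, hm⟩ := h
        constructor <;> omega
    -- the fine class
    set α := q'.eval t₀ with hα
    set β := q.eval t₀ with hβ
    set b1 := q.coeff 1 + 2 * q.coeff 2 * t₀ with hb1
    set b2 := q.coeff 2 with hb2
    set d1 := q'.coeff 1 + 2 * q'.coeff 2 * t₀ with hd1
    set d2 := q'.coeff 2 with hd2'
    have hqe : ∀ u, q.eval (t₀ + u) = β + b1 * u + b2 * u ^ 2 := fun u => eval_two hd2.1 t₀ u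
    have hqe' : ∀ u, q'.eval (t₀ + u) = α + d1 * u + d2 * u ^ 2 := fun u => eval_two hd2.2 t₀ u
    -- comparison of the coefficients
    have hpolid : ∀ u : ℚ, c + a1 * u + a2 * u ^ 2 + a3 * u ^ 3 + q₄ * u ^ 4 =
        (β + b1 * u + b2 * u ^ 2) * (α + d1 * u + d2 * u ^ 2) := by
      intro u
      rw [← hqe, ← hqe', ← hFe]
      apply mul_left_cancel₀ hC0
      rw [← hval]
      ring
    have e1 : a1 = β * d1 + b1 * α := by
      have k1 := hpolid 1
      have k2 := hpolid (-1)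
      have k3 := hpolid 2
      have k4 := hpolid (-2)
      rw [hcc] at k1 k2 k3 k4
      linear_combination (2 / 3) * k1 - (2 / 3) * k2 - (1 / 12) * k3 + (1 / 12) * k4
    have e2 : a2 = β * d2 + b1 * d1 + b2 * α := by
      have k1 := hpolid 1
      have k2 := hpolid (-1)
      have k3 := hpolid 2
      have k4 := hpolid (-2)
      rw [hcc] at k1 k2 k3 k4
      linear_combination (2 / 3) * k1 + (2 / 3) * k2 - (1 / 24) * k3 - (1 / 24) * k4
    have e3 : a3 = b1 * d2 + b2 * d1 := by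
      have k1 := hpolid 1
      have k2 := hpolid (-1)
      have k3 := hpolid 2
      have k4 := hpolid (-2)
      rw [hcc] at k1 k2 k3 k4
      linear_combination (-1 / 6) * k1 + (1 / 6) * k2 + (1 / 12) * k3 - (1 / 12) * k4
    have e4 : q₄ = b2 * d2 := by
      have k1 := hpolid 1
      have k2 := hpolid (-1)
      have k3 := hpolid 2
      have k4 := hpolid (-2)
      rw [hcc] at k1 k2 k3 k4
      linear_combination (-1 / 6) * k1 - (1 / 6) * k2 + (1 / 24) * k3 + (1 / 24) * k4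
    have key := hfine (α * β) (α * b1) (α * b2) (β * α) (β * d1) (β * d2) (by rw [hcc]; ring)
      (by rw [e1, hcc]; ring) (by rw [e2, hcc]; ring) (by rw [e3, hcc]; ring)
      (by rw [e4, hcc]; ring) (by rw [hval]; exact mul_ne_zero hC0 hFt)
    obtain ⟨ρ, hρ, h2⟩ := key
    refine ⟨ρ, hρ, ?_⟩
    rw [hqe]
    apply mul_left_cancel₀ hqt0'
    linear_combination h2

end line

end Pool.Agent.J4H71.SC
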