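import Pool.Agent.J4H71.SC.Line

/-!
# Lines with at most four branch points are admissible, the blocks (helper71)
-/

set_option autoImplicit false
set_option linter.unusedSectionVars false

namespace Pool.Agent.J4H71.SC

open Set Filter Topology Pool.Agent.H581R2 Pool.Agent.TH729.SQ Polynomial

/-- enlarging the branch divisor by one point -/
lemma exists_sep_one {F : ℚ[X]} (hF : F.Separable) :
    ∃ G : ℚ[X], G.Separable ∧ F ∣ G ∧ G.natDegree = F.natDegree + 1 := by
  have hF0 : F ≠ 0 := hF.ne_zero
  obtain ⟨d, hd⟩ : ∃ d : ℚ, F.eval d ≠ 0 := by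
    by_contra hcon
    push Not at hcon
    exact hF0 (Polynomial.funext fun r => by rw [hcon, eval_zero])
  refine ⟨F * (X - C d), ?_, dvd_mul_right _ _, ?_⟩
  · refine hF.mul (separable_X_sub_C (x := d)) ?_
    refine IsCoprime.symm ?_
    rw [(irreducible_X_sub_C d).coprime_iff_not_dvd]
    rw [dvd_iff_isRoot]
    exact hd
  · rw [natDegree_mul hF0 (X_sub_C_ne_zero d), natDegree_X_sub_C]

lemma exists_sep {F : ℚ[X]} (hF : F.Separable) (hd : F.natDegree ≤ 4) :
    ∃ G : ℚ[X], G.Separable ∧ 3 ≤ G.natDegree ∧ G.natDegree ≤ 4 ∧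
      ∀ p, Adapted F p → Adapted G p := by
  by_cases h3 : 3 ≤ F.natDegree
  · exact ⟨F, hF, h3, hd, fun p hp => hp⟩
  push Not at h3
  have key : ∀ n : ℕ, ∀ F : ℚ[X], F.Separable → F.natDegree + n = 3 →
      ∃ G : ℚ[X], G.Separable ∧ F ∣ G ∧ G.natDegree = 3 := by
    intro n
    induction n with
    | zero => exact fun F hF hn => ⟨F, hF, dvd_rfl, hn⟩
    | succ n ih =>
      intro F hF hn
      obtain ⟨G, h1, h2, h3⟩ := exists_sep_one hF
      obtain ⟨H, k1, k2, k3⟩ := ih G h1 (by omega)
      exact ⟨H, k1, h2.trans k2, k3⟩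
  obtain ⟨G, h1, h2, hG3⟩ := key (3 - F.natDegree) F hF (by omega)
  refine ⟨G, h1, hG3.ge, by omega, ?_⟩
  rintro p ⟨c, g, q, q', hp, hqq, -⟩
  obtain ⟨r, rfl⟩ := h2
  exact ⟨c, g, q, q' * r, hp, by rw [hqq]; ring, Or.inl (by omega)⟩

/-- a function of one variable -/
noncomputable def one (p : ℚ[X]) : MvPolynomial (Fin 1) ℚ :=
  Polynomial.aeval (MvPolynomial.X 0 : MvPolynomial (Fin 1) ℚ) p

lemma one_eval (p : ℚ[X]) (z : Fin 1 → ℚ) : MvPolynomial.eval z (one p) = p.eval (z 0) := by
  have h := Polynomial.aeval_algHom_apply (MvPolynomial.aeval z : MvPolynomial (Fin 1) ℚ →ₐ[ℚ] ℚ)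
    (MvPolynomial.X 0) p
  rw [MvPolynomial.aeval_X, MvPolynomial.aeval_eq_eval] at h
  rw [one]
  exact h.symm

lemma one_aeval (p : ℚ[X]) (x : Fin 1 → ℝ) :
    MvPolynomial.aeval x (one p) = Polynomial.aeval (x 0) p := by
  have h := Polynomial.aeval_algHom_apply (MvPolynomial.aeval x : MvPolynomial (Fin 1) ℚ →ₐ[ℚ] ℝ)
    (MvPolynomial.X 0) p
  rw [MvPolynomial.aeval_X] at h
  exact h.symm

variable {R : Type} [Finite R]

/-- **Lines with at most four branch points are admissible.** -/
theorem line_adm {F : ℚ[X]} (hF : F.Separable) (hd : F.natDegree ≤ 4) (p : R → ℚ[X])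
    (hp : ∀ r, Adapted F (p r)) : Adm (fun r => one (p r)) univ := by
  classical
  have := Fintype.ofFinite R
  obtain ⟨G, hG, hG3, hG4, hGp⟩ := exists_sep hF hd
  obtain ⟨T, hT, hfine⟩ := line_fine hG hG3 hG4
  -- the polynomial which vanishes at the branch points
  set Φ : ℚ[X] := G * ∏ r, if p r = 0 then 1 else p r with hΦ
  have hΦ0 : Φ ≠ 0 := by
    refine mul_ne_zero hG.ne_zero (Finset.prod_ne_zero_iff.2 fun r _ => ?_)
    split_ifs with h
    · exact one_ne_zero
    · exact h
  have hΦG : ∀ x : ℝ, aeval x Φ ≠ 0 → aeval x G ≠ 0 := by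
    intro x hx h0
    apply hx
    rw [hΦ, map_mul, h0, zero_mul]
  have hΦr : ∀ x : ℝ, aeval x Φ ≠ 0 → ∀ r, p r ≠ 0 → aeval x (p r) ≠ 0 := by
    intro x hx r hr h0
    apply hx
    rw [hΦ, map_mul, map_prod, Finset.prod_eq_zero (Finset.mem_univ r), mul_zero]
    rw [if_neg hr, h0]
  set E : Set ℚ := T ∪ {t | Φ.eval t = 0} with hE
  have hEf : E.Finite := by
    refine hT.union ?_
    exact (Φ.roots.toFinset.finite_toSet).subset fun t ht => by
      rw [Finset.mem_coe, Multiset.mem_toFinset, mem_roots hΦ0]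
      exact ht
  set N : Set (Fin 1 → ℚ) := {z | z 0 ∉ E} with hN
  set W : Set (Fin 1 → ℝ) := {x | aeval (x 0) Φ ≠ 0} with hW
  have hcastne : ∀ t : ℚ, t ∉ E → aeval (t : ℝ) Φ ≠ 0 := by
    intro t ht h0
    apply ht
    right
    rw [aeval_cast'] at h0
    exact_mod_cast h0
  have hpiece : Piece (fun r => one (p r)) N W := by
    refine ⟨?_, ?_, ?_, ?_⟩
    · refine SAP.not (SAP.eq_zero ⟨one Φ, fun x => ?_⟩)
      rw [one_aeval]
    · intro z hz
      exact hcastne _ hz
    · intro r
      by_cases hr : p r = 0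
      · right
        intro x _
        rw [one_aeval, hr, map_zero]
      · left
        intro x hx
        rw [one_aeval]
        exact hΦr _ hx r hr
    · intro z hz x hx hxc
      refine mem_nhdsWithin_of_mem_nhds ?_
      -- an interval without zeros
      have hcont : Continuous fun y : ℝ => aeval y Φ := by fun_prop
      obtain ⟨δ, hδ, hδ'⟩ : ∃ δ : ℝ, 0 < δ ∧ ∀ y : ℝ, |y - x 0| < δ → aeval y Φ ≠ 0 := by
        have := hcont.continuousAt.eventually_ne (show aeval (x 0) Φ ≠ 0 from hx)
        rw [Metric.eventually_nhds_iff] at this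
        obtain ⟨δ, hδ, h⟩ := this
        exact ⟨δ, hδ, fun y hy => h (by rw [Real.dist_eq]; exact hy)⟩
      -- a point of the class in the interval
      obtain ⟨_, ⟨z₁, hz₁, rfl⟩, hd1⟩ := Metric.mem_closure_iff.1 hxc δ hδ
      have hz1 : |(z₁ 0 : ℝ) - x 0| < δ := by
        have := (dist_pi_lt_iff hδ).1 hd1 0
        rw [Real.dist_eq, abs_sub_comm] at this
        exact this
      have hz1T : z₁ 0 ∉ T := fun h => hz₁.1 (Or.inl h)
      obtain ⟨-, hfine1⟩ := hfine _ hz1T
      -- the whole interval is in the closure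
      have hmain : ∀ y : Fin 1 → ℝ, |y 0 - x 0| < δ →
          y ∈ closure (rl (cls (fun r => one (p r)) N z)) := by
        intro y hy
        rw [Metric.mem_closure_iff]
        intro ε hε
        -- a parameter near `y` which is not an exceptional point
        obtain ⟨s, hs1, hs2⟩ : ∃ s : ℝ, |s - y 0| < min (ε / 2) (δ - |y 0 - x 0|) ∧
            s ∉ (fun t : ℚ => (t : ℝ)) '' T := by
          have hm : 0 < min (ε / 2) (δ - |y 0 - x 0|) := lt_min (half_pos hε) (by linarith)
          have hinf : (Metric.ball (y 0) (min (ε / 2) (δ - |y 0 - x 0|))).Infinite := by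
            rw [Real.ball_eq_Ioo]
            exact Set.Ioo_infinite (by linarith)
          obtain ⟨s, hs, hs'⟩ := (hinf.sdiff (hT.image fun t : ℚ => (t : ℝ))).nonempty
          refine ⟨s, ?_, hs'⟩
          rw [Metric.mem_ball, Real.dist_eq] at hs
          exact hs
        have hsδ : |s - x 0| < δ := by
          have h1 := abs_sub_le s (y 0) (x 0)
          have h2 := hs1.trans_le (min_le_right _ _)
          linarith
        -- the distance from the exceptional points
        obtain ⟨η, hη, hη'⟩ : ∃ η : ℝ, 0 < η ∧ ∀ t : ℚ, |(t : ℝ) - s| < η → t ∉ T := by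
          have hcl : IsClosed ((fun t : ℚ => (t : ℝ)) '' T) := (hT.image _).isClosed
          obtain ⟨η, hη, h⟩ := Metric.isOpen_iff.1 hcl.isOpen_compl s hs2
          refine ⟨η, hη, fun t ht htT => ?_⟩
          exact h (by rw [Metric.mem_ball, Real.dist_eq]; exact ht) ⟨t, htT, rfl⟩
        obtain ⟨t, ht1, ht2, ht3⟩ := hfine1 s (by
          intro u hu0 hu1
          apply hΦG
          apply hδ'
          have : (z₁ 0 : ℝ) + u * (s - z₁ 0) - x 0 = (1 - u) * (z₁ 0 - x 0) + u * (s - x 0) := by
            ring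
          rw [this]
          have h1 := abs_add_le ((1 - u) * ((z₁ 0 : ℝ) - x 0)) (u * (s - x 0))
          rw [abs_mul, abs_mul, abs_of_nonneg (sub_nonneg.2 hu1), abs_of_nonneg hu0] at h1
          rcases eq_or_lt_of_le hu0 with h2 | h2
          · rw [← h2] at h1 ⊢
            simp only [sub_zero, one_mul, zero_mul, add_zero] at h1 ⊢
            exact hz1
          · have h3 : u * |s - x 0| < u * δ := mul_lt_mul_of_pos_left hsδ h2
            have h4 : (1 - u) * |(z₁ 0 : ℝ) - x 0| ≤ (1 - u) * δ :=
              mul_le_mul_of_nonneg_left hz1.le (by linarith)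
            linarith) (min (ε / 2) (min η (δ - |s - x 0|)))
            (lt_min (half_pos hε) (lt_min hη (by linarith)))
        have ht1a : |(t : ℝ) - s| < ε / 2 := ht1.trans_le (min_le_left _ _)
        have ht1b : |(t : ℝ) - s| < η := ht1.trans_le ((min_le_right _ _).trans (min_le_left _ _))
        have ht1c : |(t : ℝ) - s| < δ - |s - x 0| :=
          ht1.trans_le ((min_le_right _ _).trans (min_le_right _ _))
        have htδ : |(t : ℝ) - x 0| < δ := by
          have h1 := abs_sub_le (t : ℝ) s (x 0)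
          linarith
        have htΦ := hδ' _ htδ
        have htE : t ∉ E := by
          rintro (h | h)
          · exact hη' t ht1b h
          · apply htΦ
            rw [aeval_cast']
            have : Φ.eval t = 0 := h
            rw [this]
            norm_num
        refine ⟨fun i => (((fun _ => t : Fin 1 → ℚ) i : ℚ) : ℝ), mem_rl ⟨htE, fun r => ?_⟩, ?_⟩
        · refine (hz₁.2 r).trans ?_
          rw [one_eval, one_eval]
          by_cases hr : p r = 0
          · rw [hr, eval_zero, eval_zero]
            exact Sim.refl _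
          · refine ht3 _ (hGp _ (hp r)) ?_ ?_
            · intro h0
              apply hΦr _ (hcastne _ hz₁.1) r hr
              rw [aeval_cast', h0]
              norm_num
            · intro h0
              apply hΦr _ htΦ r hr
              have h0' : (p r).eval t = 0 := h0
              rw [aeval_cast', h0']
              norm_num
        · rw [dist_pi_lt_iff hε]
          intro i
          rw [Subsingleton.elim i 0, Real.dist_eq, abs_sub_comm]
          have h1 := abs_sub_le (t : ℝ) s (y 0)
          have h2 := hs1.trans_le (min_le_left _ _)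
          linarith
      have hopen : IsOpen {y : Fin 1 → ℝ | |y 0 - x 0| < δ} :=
        isOpen_lt (by fun_prop) continuous_const
      filter_upwards [hopen.mem_nhds (show x ∈ {y : Fin 1 → ℝ | |y 0 - x 0| < δ} by simpa using hδ)]
        with y hy
      exact hmain y hy
  have huniv : (univ : Set (Fin 1 → ℚ)) = N ∪ {z | z 0 ∈ E} := by
    ext z
    simp only [mem_univ, mem_union, true_iff]
    exact (em (z 0 ∈ E)).symm
  rw [huniv]
  refine hpiece.adm.union (adm_finite _ ?_)
  refine Set.Finite.of_finite_image (f := fun z : Fin 1 → ℚ => z 0) (hEf.subset ?_) ?_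
  · rintro _ ⟨z, hz, rfl⟩
    exact hz
  · intro z _ z' _ h
    funext i
    rw [Subsingleton.elim i 0]
    exact h

end Pool.Agent.J4H71.SC
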