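import Pool.Agent.J4H71.SC.Line2
import Pool.Agent.Y718.LK
import Pool.Agent.Y718.Den

/-!
# Functions whose product is of degree at most two in each variable (helper71)
-/

set_option autoImplicit false
set_option linter.unusedSectionVars false

namespace Pool.Agent.J4H71.SC

open Set Filter Topology Pool.Agent.H581R2 Pool.Agent.TH729.SQ Polynomial

/-- two linear functions -/
lemma two_lin {p0 p1 q0 q1 : ℚ} (hp0 : p0 ≠ 0) (hq0 : q0 ≠ 0) (hp1 : p1 ≠ 0) (hq1 : q1 ≠ 0)
    (hne : p0 * q1 ≠ p1 * q0) {s : ℝ} (hs : s ≠ 0) (h1 : 0 < (p0 : ℝ) * (p0 + p1 * s))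
    (h2 : 0 < (q0 : ℝ) * (q0 + q1 * s)) {ε : ℝ} (hε : 0 < ε) :
    ∃ t : ℚ, |(t : ℝ) - s| < ε ∧ (∃ u : ℚ, u ^ 2 = p0 * (p0 + p1 * t)) ∧
      ∃ v : ℚ, v ^ 2 = q0 * (q0 + q1 * t) := by
  set U : ℝ := Real.sqrt ((p0 : ℝ) * (p0 + p1 * s)) with hU
  set V : ℝ := Real.sqrt ((q0 : ℝ) * (q0 + q1 * s)) with hV
  have hU2 : U ^ 2 = (p0 : ℝ) * (p0 + p1 * s) := Real.sq_sqrt h1.le
  have hV2 : V ^ 2 = (q0 : ℝ) * (q0 + q1 * s) := Real.sq_sqrt h2.le
  have hp0R : (p0 : ℝ) ≠ 0 := by exact_mod_cast hp0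
  have hq0R : (q0 : ℝ) ≠ 0 := by exact_mod_cast hq0
  have hp1R : (p1 : ℝ) ≠ 0 := by exact_mod_cast hp1
  have hq1R : (q1 : ℝ) ≠ 0 := by exact_mod_cast hq1
  have hneR : (p0 : ℝ) * q1 ≠ p1 * q0 := by exact_mod_cast hne
  set a : ℝ := U - p0 with ha
  set b : ℝ := V - q0 with hb
  have key : q0 * q1 * a ^ 2 - p0 * p1 * b ^ 2 = 2 * p0 * q0 * (p1 * b - q1 * a) := by
    have e1 : a ^ 2 = U ^ 2 - 2 * p0 * a - p0 ^ 2 := by rw [ha]; ring
    have e2 : b ^ 2 = V ^ 2 - 2 * q0 * b - q0 ^ 2 := by rw [hb]; ring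
    rw [e1, e2, hU2, hV2]
    ring
  have hD : (q0 : ℝ) * q1 * a ^ 2 - p0 * p1 * b ^ 2 ≠ 0 := by
    intro h0
    rw [h0] at key
    have e1 : (p1 : ℝ) * b = q1 * a := by
      have h3 : (2 : ℝ) * p0 * q0 ≠ 0 := mul_ne_zero (mul_ne_zero two_ne_zero hp0R) hq0R
      have := (mul_eq_zero.1 key.symm).resolve_left h3
      linarith
    have e2 : (q1 : ℝ) * a * (q0 * a - p0 * b) = 0 := by
      linear_combination h0 + p0 * b * e1
    by_cases ha0 : a = 0
    · have : U = p0 := by linarith
      rw [this] at hU2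
      have h4 : (p0 : ℝ) * p1 * s = 0 := by linear_combination hU2 * (-1)
      exact mul_ne_zero (mul_ne_zero hp0R hp1R) hs h4
    · have h3 : (q0 : ℝ) * a - p0 * b = 0 := (mul_eq_zero.1 e2).resolve_left (mul_ne_zero hq1R ha0)
      have h4 : a * ((p1 : ℝ) * q0 - p0 * q1) = 0 := by
        linear_combination p1 * h3 + p0 * e1
      rcases mul_eq_zero.1 h4 with h5 | h5
      · exact ha0 h5
      · exact hneR (by linarith)
  obtain ⟨α, hα⟩ := seq_rat a
  obtain ⟨β, hβ⟩ := seq_rat b
  set D : ℕ → ℚ := fun n => q0 * q1 * α n ^ 2 - p0 * p1 * β n ^ 2 with hDdef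
  set m : ℕ → ℚ := fun n => 2 * p0 * q0 * (p1 * β n - q1 * α n) / D n with hm
  set t : ℕ → ℚ := fun n => ((p0 + m n * α n) ^ 2 - p0 ^ 2) / (p0 * p1) with ht
  have hDl : Tendsto (fun n => (D n : ℝ)) atTop (𝓝 (q0 * q1 * a ^ 2 - p0 * p1 * b ^ 2)) := by
    have : Tendsto (fun n => (q0 : ℝ) * q1 * (α n : ℝ) ^ 2 - p0 * p1 * (β n : ℝ) ^ 2) atTop
        (𝓝 (q0 * q1 * a ^ 2 - p0 * p1 * b ^ 2)) :=
      ((hα.pow 2).const_mul _).sub ((hβ.pow 2).const_mul _)
    refine this.congr fun n => ?_
    rw [hDdef]; push_cast; rfl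
  have hml : Tendsto (fun n => (m n : ℝ)) atTop (𝓝 1) := by
    have h3 : Tendsto (fun n => 2 * (p0 : ℝ) * q0 * (p1 * (β n : ℝ) - q1 * (α n : ℝ)) / (D n : ℝ)) atTop
        (𝓝 (2 * p0 * q0 * (p1 * b - q1 * a) / (q0 * q1 * a ^ 2 - p0 * p1 * b ^ 2))) :=
      (((hβ.const_mul _).sub (hα.const_mul _)).const_mul _).div hDl hD
    rw [← key, div_self hD] at h3
    refine h3.congr fun n => ?_
    rw [hm]; push_cast; rfl
  have htl : Tendsto (fun n => (t n : ℝ)) atTop (𝓝 s) := by
    have h3 : Tendsto (fun n => (((p0 : ℝ) + (m n : ℝ) * (α n : ℝ)) ^ 2 - p0 ^ 2) / (p0 * p1)) atTop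
        (𝓝 (((p0 + 1 * a) ^ 2 - p0 ^ 2) / (p0 * p1))) :=
      (((tendsto_const_nhds.add (hml.mul hα)).pow 2).sub_const _).div_const _
    have e : (((p0 : ℝ) + 1 * a) ^ 2 - p0 ^ 2) / (p0 * p1) = s := by
      have : (p0 : ℝ) + 1 * a = U := by rw [ha]; ring
      rw [this, hU2]
      field_simp
      ring
    rw [e] at h3
    refine h3.congr fun n => ?_
    rw [ht]; push_cast; rfl
  have hev1 := (Metric.tendsto_nhds.1 htl) ε hε
  have hev2 : ∀ᶠ n in atTop, D n ≠ 0 := by
    filter_upwards [hDl.eventually_ne hD] with n hn h0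
    apply hn
    rw [h0]
    norm_num
  obtain ⟨n, hn1, hn2⟩ := (hev1.and hev2).exists
  rw [Real.dist_eq] at hn1
  refine ⟨t n, hn1, ⟨p0 + m n * α n, ?_⟩, ⟨q0 + m n * β n, ?_⟩⟩
  · rw [ht]
    field_simp
    ring
  · have hmD : m n * D n = 2 * p0 * q0 * (p1 * β n - q1 * α n) := by
      rw [hm]
      field_simp
    have h3 : (q0 + m n * β n) ^ 2 * (p0 * p1) = q0 * (q0 + q1 * t n) * (p0 * p1) := by
      have e : t n * (p0 * p1) = (p0 + m n * α n) ^ 2 - p0 ^ 2 := by
        rw [ht]
        field_simp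
      rw [hDdef] at hmD
      linear_combination (-q0 * q1) * e - m n * hmD
    exact mul_right_cancel₀ (mul_ne_zero hp0 hp1) h3

/-- one function of degree at most two -/
lemma one_quad {p : ℚ[X]} (hp : p.natDegree ≤ 2) (hp0 : p.eval 0 ≠ 0) {s : ℝ} (hs : s ≠ 0)
    (h1 : 0 < ((p.eval 0 : ℚ) : ℝ) * aeval s p) {ε : ℝ} (hε : 0 < ε) :
    ∃ t : ℚ, |(t : ℝ) - s| < ε ∧ ∃ u : ℚ, u ^ 2 = p.eval 0 * p.eval t := by
  have he : ∀ t : ℚ, p.eval t = p.coeff 0 + p.coeff 1 * t + p.coeff 2 * t ^ 2 := by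
    intro t
    rw [Polynomial.eval_eq_sum_range' (Nat.lt_succ_of_le hp)]
    simp [Finset.sum_range_succ]
  have heR : ∀ t : ℝ, aeval t p = p.coeff 0 + p.coeff 1 * t + p.coeff 2 * t ^ 2 := by
    intro t
    rw [Polynomial.aeval_eq_sum_range' (Nat.lt_succ_of_le hp)]
    simp [Finset.sum_range_succ, Rat.smul_def]
  have hc : p.eval 0 = p.coeff 0 := by rw [he]; ring
  rw [hc] at hp0 h1 ⊢
  have h2 := Pool.Agent.Y718.conic_den (f1 := p.coeff 0 * p.coeff 1) (f2 := p.coeff 0 * p.coeff 2)
    hp0 hs (by rw [heR] at h1; push_cast; linarith)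
  rw [Pool.Agent.Y718.rc, Metric.mem_closure_iff] at h2
  obtain ⟨_, ⟨t, ⟨w, hw⟩, rfl⟩, ht⟩ := h2 ε hε
  refine ⟨t, ?_, w, ?_⟩
  · rw [Real.dist_eq, abs_sub_comm] at ht
    exact ht
  · rw [hw, he]
    ring

variable {R : Type} [Fintype R]

/-- **classes on a line, product of degree at most two** -/
lemma line_two (p : R → ℚ[X]) (hp : (∏ r, p r).natDegree ≤ 2) (hp0 : ∀ r, (p r).eval 0 ≠ 0)
    {s : ℝ} (hs : ∀ u : ℝ, 0 ≤ u → u ≤ 1 → ∀ r, aeval (u * s) (p r) ≠ 0) {ε : ℝ} (hε : 0 < ε) :
    ∃ t : ℚ, |(t : ℝ) - s| < ε ∧ ∀ r, Sim ((p r).eval 0) ((p r).eval t) := by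
  classical
  by_cases hs0 : s = 0
  · exact ⟨0, by rw [hs0]; simpa using hε, fun r => Sim.refl _⟩
  have hne : ∀ r, p r ≠ 0 := by
    intro r h0
    apply hp0 r
    rw [h0, eval_zero]
  have hdeg : ∑ r, (p r).natDegree ≤ 2 := by
    rw [← natDegree_prod _ _ fun r _ => hne r]
    exact hp
  -- signs
  have hsign : ∀ r, 0 < (((p r).eval 0 : ℚ) : ℝ) * aeval s (p r) := by
    intro r
    set φ : ℝ → ℝ := fun v => (((p r).eval 0 : ℚ) : ℝ) * aeval (v * s) (p r) with hφ
    have hφc : Continuous φ := by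
      have : Continuous fun y : ℝ => aeval y (p r) := by fun_prop
      exact continuous_const.mul (this.comp (by fun_prop))
    have hR0 : (((p r).eval 0 : ℚ) : ℝ) ≠ 0 := by exact_mod_cast hp0 r
    have hφ0 : 0 < φ 0 := by
      have e : φ 0 = (((p r).eval 0 : ℚ) : ℝ) ^ 2 := by
        rw [hφ]
        simp only [zero_mul]
        have := aeval_cast' (p r) 0
        rw [Rat.cast_zero] at this
        rw [this]
        ring
      rw [e]
      positivity
    by_contra hcon
    push Not at hcon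
    have h1 := intermediate_value_Icc' (zero_le_one (α := ℝ)) hφc.continuousOn
    obtain ⟨v, hv, hv0⟩ := h1 ⟨by simpa [hφ] using hcon, hφ0.le⟩
    rcases mul_eq_zero.1 hv0 with h3 | h3
    · exact hR0 h3
    · exact hs v hv.1 hv.2 r h3
  -- avoiding the zeros
  obtain ⟨η, hη, hη'⟩ : ∃ η : ℝ, 0 < η ∧ ∀ y : ℝ, |y - s| < η → ∀ r, aeval y (p r) ≠ 0 := by
    have h1 : ∀ r, aeval s (p r) ≠ 0 := by
      intro r
      have := hs 1 zero_le_one le_rfl r
      simpa using this
    have h2 : ∀ᶠ y in 𝓝 s, ∀ r, aeval y (p r) ≠ 0 := by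
      rw [Filter.eventually_all]
      intro r
      have hcont : Continuous fun y : ℝ => aeval y (p r) := by fun_prop
      exact hcont.continuousAt.eventually_ne (h1 r)
    rw [Metric.eventually_nhds_iff] at h2
    obtain ⟨η, hη, h⟩ := h2
    exact ⟨η, hη, fun y hy => h (by rw [Real.dist_eq]; exact hy)⟩
  have hne0 : ∀ t : ℚ, |(t : ℝ) - s| < η → ∀ r, (p r).eval t ≠ 0 := by
    intro t ht r h0
    apply hη' _ ht r
    rw [aeval_cast', h0]
    norm_num
  have hconst : ∀ r, (p r).natDegree = 0 → ∀ t, Sim ((p r).eval 0) ((p r).eval t) := by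
    intro r hr t
    rw [eq_C_of_natDegree_eq_zero hr, eval_C, eval_C]
    exact Sim.refl _
  by_cases hall : ∀ r, (p r).natDegree = 0
  · obtain ⟨q, h1, h2⟩ := exists_rat_btwn (show s - ε < s by linarith)
    refine ⟨q, ?_, fun r => hconst r (hall r) q⟩
    rw [abs_lt]
    constructor <;> linarith
  push Not at hall
  obtain ⟨r₁, hr₁⟩ := hall
  by_cases hone : ∀ r, r ≠ r₁ → (p r).natDegree = 0
  · have hd1 : (p r₁).natDegree ≤ 2 :=
      (Finset.single_le_sum (f := fun r => (p r).natDegree) (fun _ _ => Nat.zero_le _)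
        (Finset.mem_univ r₁)).trans hdeg
    obtain ⟨t, ht, u, hu⟩ := one_quad hd1 (hp0 r₁) hs0 (hsign r₁) (lt_min hε hη)
    refine ⟨t, ht.trans_le (min_le_left _ _), fun r => ?_⟩
    by_cases h : r = r₁
    · subst h
      exact (sim_iff (hp0 r)).2 ⟨hne0 t (ht.trans_le (min_le_right _ _)) r, u, hu⟩
    · exact hconst r (hone r h) t
  · push Not at hone
    obtain ⟨r₂, hr₂, hr₂'⟩ := hone
    have hsum : (p r₁).natDegree + (p r₂).natDegree + ∑ r ∈ (Finset.univ.erase r₁).erase r₂,
        (p r).natDegree ≤ 2 := by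
      rw [add_assoc, Finset.add_sum_erase _ (fun r => (p r).natDegree)
        (Finset.mem_erase.2 ⟨hr₂, Finset.mem_univ _⟩),
        Finset.add_sum_erase _ (fun r => (p r).natDegree) (Finset.mem_univ r₁)]
      exact hdeg
    have hd1 : (p r₁).natDegree = 1 := by omega
    have hd2 : (p r₂).natDegree = 1 := by omega
    have hrest : ∀ r, r ≠ r₁ → r ≠ r₂ → (p r).natDegree = 0 := by
      intro r h1 h2
      have h3 : (p r).natDegree ≤ ∑ r ∈ (Finset.univ.erase r₁).erase r₂, (p r).natDegree :=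
        Finset.single_le_sum (f := fun r => (p r).natDegree) (fun _ _ => Nat.zero_le _)
          (Finset.mem_erase.2 ⟨h2, Finset.mem_erase.2 ⟨h1, Finset.mem_univ _⟩⟩)
      omega
    have hlin : ∀ r, (p r).natDegree = 1 → (∀ t, (p r).eval t = (p r).eval 0 + (p r).coeff 1 * t) ∧
        (∀ t : ℝ, aeval t (p r) = (p r).eval 0 + (p r).coeff 1 * t) ∧ (p r).coeff 1 ≠ 0 := by
      intro r hr
      have e0 : (p r).eval 0 = (p r).coeff 0 := by
        rw [← coeff_zero_eq_eval_zero]
      refine ⟨fun t => ?_, fun t => ?_, ?_⟩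
      · rw [e0, Polynomial.eval_eq_sum_range' (show (p r).natDegree < 2 by omega)]
        simp [Finset.sum_range_succ]
      · rw [e0, Polynomial.aeval_eq_sum_range' (show (p r).natDegree < 2 by omega)]
        simp [Finset.sum_range_succ, Rat.smul_def]
      · intro h0
        have : (p r).leadingCoeff = 0 := by rw [leadingCoeff, hr, h0]
        exact hne r (leadingCoeff_eq_zero.1 this)
    obtain ⟨l1, l1R, c1⟩ := hlin r₁ hd1
    obtain ⟨l2, l2R, c2⟩ := hlin r₂ hd2
    by_cases hprop : (p r₁).eval 0 * (p r₂).coeff 1 = (p r₁).coeff 1 * (p r₂).eval 0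
    · -- proportional functions
      obtain ⟨t, ht, u, hu⟩ := one_quad (by omega) (hp0 r₁) hs0 (hsign r₁) (lt_min hε hη)
      have ht' := hne0 t (ht.trans_le (min_le_right _ _))
      have hS1 : Sim ((p r₁).eval 0) ((p r₁).eval t) := (sim_iff (hp0 r₁)).2 ⟨ht' r₁, u, hu⟩
      refine ⟨t, ht.trans_le (min_le_left _ _), fun r => ?_⟩
      by_cases h : r = r₁
      · subst h
        exact hS1
      · by_cases h' : r = r₂
        · subst h'
          obtain ⟨ρ, hρ, h3⟩ := hS1
          refine ⟨ρ, hρ, ?_⟩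
          apply mul_left_cancel₀ (hp0 r₁)
          have h4 : (p r₁).eval 0 * (p r).eval t = (p r).eval 0 * (p r₁).eval t := by
            rw [l1 t, l2 t]
            linear_combination t * hprop
          rw [h4, h3]
          ring
        · exact hconst r (hrest r h h') t
    · have k1 : 0 < (((p r₁).eval 0 : ℚ) : ℝ) * (((p r₁).eval 0 : ℚ) + (p r₁).coeff 1 * s) := by
        rw [← l1R]; exact hsign r₁
      have k2 : 0 < (((p r₂).eval 0 : ℚ) : ℝ) * (((p r₂).eval 0 : ℚ) + (p r₂).coeff 1 * s) := by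
        rw [← l2R]; exact hsign r₂
      obtain ⟨t, ht, ⟨u, hu⟩, ⟨v, hv⟩⟩ := two_lin (hp0 r₁) (hp0 r₂) c1 c2 hprop hs0 k1 k2
        (lt_min hε hη)
      have ht' := hne0 t (ht.trans_le (min_le_right _ _))
      refine ⟨t, ht.trans_le (min_le_left _ _), fun r => ?_⟩
      by_cases h : r = r₁
      · subst h
        exact (sim_iff (hp0 r)).2 ⟨ht' r, u, by rw [hu, l1 t]⟩
      · by_cases h' : r = r₂
        · subst h'
          exact (sim_iff (hp0 r)).2 ⟨ht' r, v, by rw [hv, l2 t]⟩
        · exact hconst r (hrest r h h') t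

open Pool.Agent.Y718.X (lk lk_eval lk_natDegree)

variable {m : ℕ}

lemma lk_prod (h : R → MvPolynomial (Fin m) ℚ) (z u : Fin m → ℚ) :
    lk (∏ r, h r) z u = ∏ r, lk (h r) z u := by
  unfold lk
  rw [map_prod]

lemma lk_aeval (f : MvPolynomial (Fin m) ℚ) (z u : Fin m → ℚ) (t : ℝ) :
    aeval t (lk f z u) = MvPolynomial.aeval (fun k => (z k : ℝ) + t * u k) f := by
  have h1 := Pool.Agent.Y718.X.lk_eval₂ (Rat.castHom ℝ) f z u t
  have e : (Rat.castHom ℝ) = algebraMap ℚ ℝ := Subsingleton.elim _ _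
  rw [e] at h1
  exact h1

lemma upd_eq (z : Fin m → ℚ) (i : Fin m) (t : ℚ) :
    z + t • (Pi.single i 1 : Fin m → ℚ) = Function.update z i (z i + t) := by
  funext k
  by_cases hk : k = i
  · subst hk; simp
  · simp [Function.update_of_ne hk, Pi.single_eq_of_ne hk]

lemma upd_eqR (z : Fin m → ℚ) (i : Fin m) (t : ℝ) :
    (fun k => (z k : ℝ) + t * ((Pi.single i 1 : Fin m → ℚ) k : ℚ)) =
      Function.update (fun k => (z k : ℝ)) i ((z i : ℝ) + t) := by
  funext k
  by_cases hk : k = i
  · subst hk; simp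
  · simp [Function.update_of_ne hk, Pi.single_eq_of_ne hk]

/-- moving one coordinate of a rational point -/
lemma move_rat {h : R → MvPolynomial (Fin m) ℚ} (hd : ∀ i, (∏ r, h r).degreeOf i ≤ 2)
    {N : Set (Fin m → ℚ)} (hN : N = {z | MvPolynomial.eval z (∏ r, h r) ≠ 0})
    {z₀ z : Fin m → ℚ} (hz : z ∈ cls h N z₀) (i : Fin m) {s : ℝ}
    (hs : ∀ u : ℝ, 0 ≤ u → u ≤ 1 → (MvPolynomial.aeval (Function.update (fun k => (z k : ℝ)) i
      ((z i : ℝ) + u * s)) (∏ r, h r) : ℝ) ≠ 0) :
    Function.update (fun k => (z k : ℝ)) i ((z i : ℝ) + s) ∈ closure (rl (cls h N z₀)) := by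
  classical
  rw [Metric.mem_closure_iff]
  intro ε hε
  set p : R → ℚ[X] := fun r => lk (h r) z (Pi.single i 1) with hp
  have hpe : ∀ r t, (p r).eval t = MvPolynomial.eval (Function.update z i (z i + t)) (h r) := by
    intro r t
    rw [hp]
    simp only
    rw [lk_eval, upd_eq]
  have hpeR : ∀ r (t : ℝ), aeval t (p r) = MvPolynomial.aeval (Function.update
      (fun k => (z k : ℝ)) i ((z i : ℝ) + t)) (h r) := by
    intro r t
    rw [hp]
    simp only
    rw [lk_aeval, upd_eqR]
  have hz0 : MvPolynomial.eval z (∏ r, h r) ≠ 0 := by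
    have := hz.1
    rw [hN] at this
    exact this
  have hzr : ∀ r, MvPolynomial.eval z (h r) ≠ 0 := by
    intro r h0
    apply hz0
    rw [map_prod]
    exact Finset.prod_eq_zero (Finset.mem_univ r) h0
  have hp0 : ∀ r, (p r).eval 0 = MvPolynomial.eval z (h r) := by
    intro r
    rw [hpe, add_zero, Function.update_eq_self]
  obtain ⟨t, ht1, ht2⟩ := line_two p (s := s) (by
    rw [hp, ← lk_prod]
    exact (lk_natDegree _ z i).trans (hd i)) (fun r => by rw [hp0]; exact hzr r)
    (fun u hu0 hu1 r h0 => by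
      apply hs u hu0 hu1
      rw [map_prod]
      refine Finset.prod_eq_zero (Finset.mem_univ r) ?_
      rw [← hpeR]
      exact h0) hε
  refine ⟨_, mem_rl (z := Function.update z i (z i + t)) ⟨?_, fun r => ?_⟩, ?_⟩
  · rw [hN]
    change MvPolynomial.eval _ _ ≠ 0
    rw [map_prod]
    refine Finset.prod_ne_zero_iff.2 fun r _ => ?_
    rw [← hpe]
    exact (ht2 r).ne_zero (by rw [hp0]; exact hzr r)
  · refine (hz.2 r).trans ?_
    rw [← hpe, ← hp0]
    exact ht2 r
  · rw [dist_pi_lt_iff hε]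
    intro k
    by_cases hk : k = i
    · subst hk
      simp only [Function.update_self]
      rw [Real.dist_eq, abs_sub_comm]
      push_cast
      have : (z k : ℝ) + t - (z k + s) = t - s := by ring
      rw [this]
      exact ht1
    · simp only [Function.update_of_ne hk]
      simpa using hε

/-- **Functions whose product has degree at most two in each variable.** -/
theorem multi_adm (h : R → MvPolynomial (Fin m) ℚ) (hd : ∀ i, (∏ r, h r).degreeOf i ≤ 2) :
    Piece h {z | MvPolynomial.eval z (∏ r, h r) ≠ 0}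
      {x | (MvPolynomial.aeval x (∏ r, h r) : ℝ) ≠ 0} := by
  classical
  set N : Set (Fin m → ℚ) := {z | MvPolynomial.eval z (∏ r, h r) ≠ 0} with hN
  refine ⟨SAP.not (SAP.eq_zero (PF.aeval _)), fun z hz => ?_, fun r => Or.inl fun x hx h0 => ?_,
    fun z₀ hz₀ x hx hxc => ?_⟩
  · change (MvPolynomial.aeval _ _ : ℝ) ≠ 0
    rw [Pool.Agent.TH729.SQ.aeval_cast]
    exact_mod_cast hz
  · apply hx
    rw [map_prod]
    exact Finset.prod_eq_zero (Finset.mem_univ r) h0
  · refine mem_nhdsWithin_of_mem_nhds ?_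
    have hopen : IsOpen {x : Fin m → ℝ | (MvPolynomial.aeval x (∏ r, h r) : ℝ) ≠ 0} :=
      isOpen_ne_fun (continuous_aeval _) continuous_const
    obtain ⟨δ, hδ, hball⟩ := Metric.isOpen_iff.1 hopen x hx
    set C := closure (rl (cls h N z₀)) with hC
    have hCc : IsClosed C := isClosed_closure
    -- moving one coordinate of a point of the closure
    have hmove : ∀ y ∈ Metric.ball x δ, y ∈ C → ∀ (i : Fin m) (s : ℝ), |s - x i| < δ →
        Function.update y i s ∈ C := by
      intro y hy hyC i s hs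
      have h1 : Tendsto (fun w : Fin m → ℝ => Function.update w i s) (𝓝 y)
          (𝓝 (Function.update y i s)) :=
        (Continuous.update continuous_id i continuous_const).tendsto y
      have h2 : ∃ᶠ w in 𝓝 y, w ∈ rl (cls h N z₀) ∧ w ∈ Metric.ball x δ :=
        (mem_closure_iff_frequently.1 hyC).and_eventually (Metric.isOpen_ball.mem_nhds hy)
      refine hCc.mem_of_frequently_of_tendsto (h2.mono ?_) h1
      rintro _ ⟨⟨z, hz, rfl⟩, hzb⟩
      have h3 := move_rat hd hN hz i (s := s - z i) (by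
        intro u hu0 hu1
        apply hball
        rw [Metric.mem_ball, dist_pi_lt_iff hδ] at hzb ⊢
        intro k
        by_cases hk : k = i
        · subst hk
          simp only [Function.update_self]
          have h4 := hzb k
          rw [Real.dist_eq] at h4 ⊢
          have e : (z k : ℝ) + u * (s - z k) - x k = (1 - u) * (z k - x k) + u * (s - x k) := by
            ring
          rw [e]
          have h5 := abs_add_le ((1 - u) * ((z k : ℝ) - x k)) (u * (s - x k))
          rw [abs_mul, abs_mul, abs_of_nonneg (sub_nonneg.2 hu1), abs_of_nonneg hu0] at h5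
          rcases eq_or_lt_of_le hu0 with h6 | h6
          · rw [← h6] at h5 ⊢
            simp only [sub_zero, one_mul, zero_mul, add_zero] at h5 ⊢
            exact h4
          · have h7 : u * |s - x k| < u * δ := mul_lt_mul_of_pos_left hs h6
            have h8 : (1 - u) * |(z k : ℝ) - x k| ≤ (1 - u) * δ :=
              mul_le_mul_of_nonneg_left h4.le (by linarith)
            linarith
        · simp only [Function.update_of_ne hk]
          exact hzb k)
      rw [add_sub_cancel] at h3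
      exact h3
    -- a point of the class in the ball
    obtain ⟨y₀, hy₀, hy₀b⟩ := Metric.mem_closure_iff.1 hxc δ hδ
    rw [dist_comm] at hy₀b
    have hall : ∀ y ∈ Metric.ball x δ, y ∈ C := by
      intro y hy
      have key : ∀ S : Finset (Fin m), (fun i => if i ∈ S then y i else y₀ i) ∈ C ∧
          (fun i => if i ∈ S then y i else y₀ i) ∈ Metric.ball x δ := by
        intro S
        refine ⟨?_, ?_⟩
        swap
        · rw [Metric.mem_ball, dist_pi_lt_iff hδ] at hy ⊢
          rw [dist_pi_lt_iff hδ] at hy₀b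
          intro k
          split_ifs
          · exact hy k
          · exact hy₀b k
        induction S using Finset.induction_on with
        | empty =>
          simp only [Finset.notMem_empty, if_false]
          exact subset_closure hy₀
        | insert a S ha ih =>
          have hb : (fun i => if i ∈ S then y i else y₀ i) ∈ Metric.ball x δ := by
            rw [Metric.mem_ball, dist_pi_lt_iff hδ] at hy ⊢
            rw [dist_pi_lt_iff hδ] at hy₀b
            intro k
            split_ifs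
            · exact hy k
            · exact hy₀b k
          have hya : |y a - x a| < δ := by
            have := (dist_pi_lt_iff hδ).1 (Metric.mem_ball.1 hy) a
            rwa [Real.dist_eq] at this
          have h3 := hmove _ hb ih a (y a) hya
          have e : Function.update (fun i => if i ∈ S then y i else y₀ i) a (y a) =
              fun i => if i ∈ insert a S then y i else y₀ i := by
            funext k
            by_cases hk : k = a
            · subst hk; simp
            · simp [hk]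
          rw [e] at h3
          exact h3
      have := (key Finset.univ).1
      simpa using this
    exact Filter.mem_of_superset (Metric.ball_mem_nhds x hδ) hall

end Pool.Agent.J4H71.SC
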