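import Pool.Agent.J4H71.SC.Multi
import Pool.Agent.Y718.Gen2

/-!
# Nondegenerate points for one function of degree at most four in each variable (helper71)
-/

set_option autoImplicit false
set_option linter.unusedSectionVars false

namespace Pool.Agent.J4H71.SC

open Set Filter Topology Pool.Agent.H581R2 Pool.Agent.TH729.SQ Pool.Agent.Y718

variable {n : ℕ}

lemma lp_smul (c : ℚ) (f : MvPolynomial (Fin n) ℚ) (z v : Fin n → ℚ) :
    Pool.Agent.Y718.lp (MvPolynomial.C c * f) z v = Polynomial.C c * Pool.Agent.Y718.lp f z v := by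
  unfold Pool.Agent.Y718.lp
  rw [map_mul]
  congr 1
  exact MvPolynomial.aeval_C _ c

lemma covB_smul (c : ℚ) (q : Polynomial ℚ) : covB (Polynomial.C c * q) = c ^ 3 * covB q := by
  simp only [covB, Polynomial.coeff_C_mul, cB]
  ring

lemma covT_smul (c : ℚ) (q : Polynomial ℚ) : covT (Polynomial.C c * q) = c ^ 4 * covT q := by
  simp only [covT, Polynomial.coeff_C_mul, cT]
  ring

lemma nondeg2_smul {c : ℚ} (hc : c ≠ 0) {f : MvPolynomial (Fin n) ℚ} {i : Fin n} {z : Fin n → ℚ}
    (h : Nondeg2 f i z) : Nondeg2 (MvPolynomial.C c * f) i z := by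
  rcases h with (h | ⟨v, hv, hq, ⟨A, B, hA, hdisc, hAB⟩, hnc⟩) | ⟨V, hi, hV, v, hv, u, hu, h⟩
  · exact Or.inl (Or.inl ((MvPolynomial.degreeOf_C_mul_le _ _ _).trans h))
  · refine Or.inl (Or.inr ⟨v, hv, ?_, ⟨c * A, c * B, mul_ne_zero hc hA, ?_, ?_⟩, ?_⟩)
    · intro z'
      obtain ⟨A', B', h'⟩ := hq z'
      refine ⟨c * A', c * B', fun s => ?_⟩
      rw [map_mul, map_mul, MvPolynomial.eval_C, MvPolynomial.eval_C, h']
      ring
    · rw [map_mul, MvPolynomial.eval_C]
      have : (c * B) ^ 2 - 4 * (c * A) * (c * MvPolynomial.eval z f) =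
          c ^ 2 * (B ^ 2 - 4 * A * MvPolynomial.eval z f) := by ring
      rw [this]
      exact mul_ne_zero (pow_ne_zero 2 hc) hdisc
    · intro s
      rw [map_mul, map_mul, MvPolynomial.eval_C, MvPolynomial.eval_C, hAB]
      ring
    · rintro ⟨c', hc'⟩
      apply hnc
      refine ⟨c', fun s => ?_⟩
      have h1 := hc' s
      rw [MvPolynomial.pderiv_C_mul, map_mul, map_mul, MvPolynomial.eval_C] at h1
      apply mul_left_cancel₀ hc
      linear_combination h1
  · refine Or.inr ⟨V, hi, ?_, v, hv, u, hu, ?_⟩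
    · intro z' w hw
      rw [lp_smul]
      exact (Polynomial.natDegree_C_mul_le _ _).trans (hV z' w hw)
    · intro α β γ h'
      have h2 := h α β (γ * c) (fun s t => by
        have h3 := h' s t
        rw [lp_smul, covB_smul, covT_smul] at h3
        apply mul_left_cancel₀ (pow_ne_zero 3 hc)
        linear_combination h3)
      exact ⟨h2.1, h2.2.1, (mul_eq_zero.1 h2.2.2).resolve_right hc⟩

lemma nondeg2_smul_iff {c : ℚ} (hc : c ≠ 0) {f : MvPolynomial (Fin n) ℚ} {i : Fin n}
    {z : Fin n → ℚ} : Nondeg2 (MvPolynomial.C c * f) i z ↔ Nondeg2 f i z := by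
  refine ⟨fun h => ?_, nondeg2_smul hc⟩
  have h1 := nondeg2_smul (inv_ne_zero hc) h
  rw [← mul_assoc, ← MvPolynomial.C_mul, inv_mul_cancel₀ hc, MvPolynomial.C_1, one_mul] at h1
  exact h1

/-- **One function of degree at most four in each variable, nondegenerate points.** -/
theorem nd_piece {f : MvPolynomial (Fin n) ℚ} (hf : ∀ i, f.degreeOf i ≤ 4) :
    Piece (fun _ : Unit => f) {z | (∀ i, Nondeg2 f i z) ∧ MvPolynomial.eval z f ≠ 0}
      {x | (MvPolynomial.aeval x f : ℝ) ≠ 0} := by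
  refine ⟨SAP.not (SAP.eq_zero (PF.aeval _)), fun z hz => ?_, fun r => Or.inl fun x hx => hx,
    fun z₀ hz₀ x hx hxc => ?_⟩
  · change (MvPolynomial.aeval _ _ : ℝ) ≠ 0
    rw [Pool.Agent.TH729.SQ.aeval_cast]
    exact_mod_cast hz.2
  · refine mem_nhdsWithin_of_mem_nhds ?_
    set c := MvPolynomial.eval z₀ f with hc
    have hc0 : c ≠ 0 := hz₀.2
    have hcls : cls (fun _ : Unit => f) {z | (∀ i, Nondeg2 f i z) ∧ MvPolynomial.eval z f ≠ 0} z₀ =
        SG2 (MvPolynomial.C c * f) := by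
      ext z
      simp only [cls, SG2, Set.mem_ofPred_eq, nondeg2_smul_iff hc0, map_mul, MvPolynomial.eval_C]
      constructor
      · rintro ⟨⟨h1, h2⟩, h3⟩
        refine ⟨h1, ?_⟩
        obtain ⟨h4, w, hw⟩ := (sim_iff hc0).1 (h3 ())
        refine ⟨w, ?_, hw⟩
        rintro rfl
        exact mul_ne_zero hc0 h2 (by rw [← hw]; ring)
      · rintro ⟨h1, w, hw0, hw⟩
        have h2 : MvPolynomial.eval z f ≠ 0 := by
          intro h0
          rw [h0, mul_zero] at hw
          exact hw0 (pow_eq_zero_iff two_ne_zero |>.1 hw)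
        exact ⟨⟨h1, h2⟩, fun _ => (sim_iff hc0).2 ⟨h2, w, hw⟩⟩
    rw [hcls] at hxc ⊢
    refine SG2_open (fun i => (MvPolynomial.degreeOf_C_mul_le _ _ _).trans (hf i)) hxc ?_
    have hnn : (0 : ℝ) ≤ MvPolynomial.aeval x (MvPolynomial.C c * f) := by
      have hcl : IsClosed {y : Fin n → ℝ | (0 : ℝ) ≤ MvPolynomial.aeval y (MvPolynomial.C c * f)} :=
        isClosed_le continuous_const (continuous_aeval _)
      refine closure_minimal ?_ hcl hxc
      rintro _ ⟨z, ⟨-, w, -, hw⟩, rfl⟩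
      simp only [Set.mem_ofPred_eq]
      rw [Pool.Agent.TH729.SQ.aeval_cast, ← hw]
      push_cast
      positivity
    refine lt_of_le_of_ne hnn (Ne.symm ?_)
    rw [map_mul]
    refine mul_ne_zero ?_ hx
    rw [MvPolynomial.aeval_C]
    simpa using hc0

end Pool.Agent.J4H71.SC
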