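import Pool.Agent.TH729.SQ.Comp
import Pool.Agent.TH729.SQ.Values
import Pool.Agent.J4H71.SC.Diag

/-!
# The square class principle (helper71)
-/

set_option autoImplicit false
set_option linter.unusedSectionVars false

namespace Pool.Agent.J4H71.SC

open Set Filter Topology Pool.Agent.H581R2 Pool.Agent.TH729.SQ

section piece

variable {κ R : Type}

/-- the points of `N` with the same square classes as `z` -/
def cls (h : R → MvPolynomial κ ℚ) (N : Set (κ → ℚ)) (z : κ → ℚ) : Set (κ → ℚ) :=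
  {z' | z' ∈ N ∧ ∀ r, Sim (MvPolynomial.eval z (h r)) (MvPolynomial.eval z' (h r))}

/-- a locally dense piece -/
structure Piece (h : R → MvPolynomial κ ℚ) (N : Set (κ → ℚ)) (W : Set (κ → ℝ)) : Prop where
  sa : SA W
  sub : ∀ z ∈ N, (fun i => (z i : ℝ)) ∈ W
  sign : ∀ r, (∀ x ∈ W, (MvPolynomial.aeval x (h r) : ℝ) ≠ 0) ∨
    (∀ x ∈ W, (MvPolynomial.aeval x (h r) : ℝ) = 0)
  opn : ∀ z ∈ N, ∀ x ∈ W, x ∈ closure (rl (cls h N z)) → closure (rl (cls h N z)) ∈ 𝓝[W] x

lemma mem_rl {D : Set (κ → ℚ)} {z : κ → ℚ} (h : z ∈ D) : (fun i => (z i : ℝ)) ∈ rl D := ⟨z, h, rfl⟩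

lemma Piece.lc {h : R → MvPolynomial κ ℚ} {N : Set (κ → ℚ)} {W : Set (κ → ℝ)} (H : Piece h N W)
    {z : κ → ℚ} (hz : z ∈ N) : LC W (closure (rl (cls h N z)) ∩ W) := by
  intro x hx
  by_cases hc : x ∈ closure (rl (cls h N z))
  · filter_upwards [H.opn z hz x hx hc, self_mem_nhdsWithin] with y hy hyW
    exact ⟨fun _ => ⟨hc, hx⟩, fun _ => ⟨hy, hyW⟩⟩
  · have h1 : (closure (rl (cls h N z)))ᶜ ∈ 𝓝[W] x :=
      nhdsWithin_le_nhds (isClosed_closure.isOpen_compl.mem_nhds hc)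
    filter_upwards [h1] with y hy
    exact ⟨fun h' => absurd h'.1 hy, fun h' => absurd h'.1 hc⟩

end piece

section main

variable {ι Λ : Type} {κ R : ι → Type} {μ : Λ → Type} [Fintype ι] [Fintype Λ]
  [∀ l, Fintype (μ l)] [∀ i, Fintype (κ i)] [∀ i, Fintype (R i)]

/-- the coordinates of the blocks -/
def xs {F : Type} (w : (Σ i, κ i) ⊕ (Σ l, μ l) → F) (i : ι) : κ i → F :=
  fun k => w (Sum.inl ⟨i, k⟩)

/-- the other coordinates -/
def us {F : Type} (w : (Σ i, κ i) ⊕ (Σ l, μ l) → F) (l : Λ) : μ l → F :=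
  fun j => w (Sum.inr ⟨l, j⟩)

/-- the coefficients -/
def cof (a : ∀ l, μ l → ℚ) (e : ∀ l, μ l → ∀ i, R i → ℕ) (l : Λ) (j : μ l) (g : ∀ i, R i → ℚ) : ℚ :=
  a l j * ∏ i, ∏ r, g i r ^ e l j i r

/-- the coefficients -/
def cofR (a : ∀ l, μ l → ℚ) (e : ∀ l, μ l → ∀ i, R i → ℕ) (l : Λ) (j : μ l) (g : ∀ i, R i → ℝ) : ℝ :=
  a l j * ∏ i, ∏ r, g i r ^ e l j i r

/-- the values -/
noncomputable def vq (h : ∀ i, R i → MvPolynomial (κ i) ℚ) (z : ∀ i, κ i → ℚ) : ∀ i, R i → ℚ :=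
  fun i r => MvPolynomial.eval (z i) (h i r)

/-- the values -/
noncomputable def vr (h : ∀ i, R i → MvPolynomial (κ i) ℚ) (z : ∀ i, κ i → ℝ) : ∀ i, R i → ℝ :=
  fun i r => MvPolynomial.aeval (z i) (h i r)

lemma vr_cast (h : ∀ i, R i → MvPolynomial (κ i) ℚ) (z : ∀ i, κ i → ℚ) (i : ι) (r : R i) :
    vr h (fun i k => (z i k : ℝ)) i r = (vq h z i r : ℝ) := aeval_cast (z i) (h i r)

lemma cofR_cast (a : ∀ l, μ l → ℚ) (e : ∀ l, μ l → ∀ i, R i → ℕ) (l : Λ) (j : μ l) (g : ∀ i, R i → ℚ) :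
    cofR a e l j (fun i r => (g i r : ℝ)) = (cof a e l j g : ℝ) := by
  simp [cofR, cof]

lemma cof_sim (a : ∀ l, μ l → ℚ) (e : ∀ l, μ l → ∀ i, R i → ℕ) (l : Λ) (j : μ l) {g g' : ∀ i, R i → ℚ}
    (hg : ∀ i r, Sim (g i r) (g' i r)) : Sim (cof a e l j g) (cof a e l j g') :=
  (Sim.refl _).mul (Sim.prod _ fun i _ => Sim.prod _ fun r _ => (hg i r).pow _)

/-- the set of the rational points -/
def Tot (h : ∀ i, R i → MvPolynomial (κ i) ℚ) (N : ∀ i, Set (κ i → ℚ)) (T : Set (∀ i, R i → ℚ))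
    (a : ∀ l, μ l → ℚ) (e : ∀ l, μ l → ∀ i, R i → ℕ) : Set ((Σ i, κ i) ⊕ (Σ l, μ l) → ℚ) :=
  {w | (∀ i, xs w i ∈ N i) ∧ vq h (xs w) ∈ T ∧
    ∀ l, ∑ j, cof a e l j (vq h (xs w)) * us w l j ^ 2 = 0}

/-- unions of square classes -/
def Sat (T : Set (∀ i, R i → ℚ)) : Prop :=
  ∀ g ∈ T, ∀ g', (∀ i r, Sim (g i r) (g' i r)) → g' ∈ T

/-- isotropic forms -/
def Iso {μ : Type} [Fintype μ] (b : μ → ℚ) : Prop := ∃ p : μ → ℚ, ∑ j, b j * p j ^ 2 = 0 ∧ ∃ j, b j * p j ≠ 0

lemma Iso.sim {μ : Type} [Fintype μ] {b b' : μ → ℚ} (h : ∀ j, Sim (b j) (b' j)) (hb : Iso b) : Iso b' := by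
  choose r hr0 hr using h
  obtain ⟨p, hp, j, hj⟩ := hb
  refine ⟨fun j => p j / r j, ?_, j, ?_⟩
  · rw [← hp]
    refine Finset.sum_congr rfl fun j _ => ?_
    rw [hr j]
    have := hr0 j
    field_simp
  · rw [hr j]
    have h1 := hr0 j
    have : r j ^ 2 * b j * (p j / r j) = r j * (b j * p j) := by
      field_simp
    rw [this]
    exact mul_ne_zero h1 hj

/-- the model of the closure -/
def Mod (h : ∀ i, R i → MvPolynomial (κ i) ℚ) (a : ∀ l, μ l → ℚ) (e : ∀ l, μ l → ∀ i, R i → ℕ)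
    (G : ∀ i, Set (κ i → ℝ)) (L : Set Λ) : Set ((Σ i, κ i) ⊕ (Σ l, μ l) → ℝ) :=
  {w | (∀ i, xs w i ∈ G i) ∧ ∀ l, ∑ j, cofR a e l j (vr h (xs w)) * us w l j ^ 2 = 0 ∧
    (l ∉ L → ∀ j, cofR a e l j (vr h (xs w)) * us w l j = 0)}

/-- polynomial functions: products -/
lemma PF.prod {ι' : Type} {α : Type*} (s : Finset α) {f : α → (ι' → ℝ) → ℝ}
    (hf : ∀ a ∈ s, PF (f a)) : PF (fun v => ∏ a ∈ s, f a v) := by
  classical
  induction s using Finset.induction_on with
  | empty => simpa using PF.one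
  | insert a s ha ih =>
    have : (fun v => ∏ b ∈ insert a s, f b v) = fun v => f a v * ∏ b ∈ s, f b v := by
      funext v; rw [Finset.prod_insert ha]
    rw [this]
    exact (hf a (by simp)).mul (ih fun b hb => hf b (by simp [hb]))

lemma PF_cof (h : ∀ i, R i → MvPolynomial (κ i) ℚ) (a : ∀ l, μ l → ℚ) (e : ∀ l, μ l → ∀ i, R i → ℕ) (l : Λ)
    (j : μ l) : PF fun w : (Σ i, κ i) ⊕ (Σ l, μ l) → ℝ => cofR a e l j (vr h (xs w)) := by
  refine (PF.const _).mul (PF.prod _ fun i _ => PF.prod _ fun r _ => PF.pow ?_ _)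
  exact (PF.aeval (h i r)).comp (φ := fun (w : (Σ i, κ i) ⊕ (Σ l, μ l) → ℝ) k => w (Sum.inl ⟨i, k⟩))
    fun k => PF.coord _

lemma Mod_SA (h : ∀ i, R i → MvPolynomial (κ i) ℚ) (a : ∀ l, μ l → ℚ) (e : ∀ l, μ l → ∀ i, R i → ℕ)
    {G : ∀ i, Set (κ i → ℝ)} (hG : ∀ i, SA (G i)) (L : Set Λ) : SA (Mod h a e G L) := by
  refine SAP.and (SAP.forall_fin fun i => ?_) (SAP.forall_fin fun l => SAP.and ?_ ?_)
  · exact SAP.preimage (p := fun v => v ∈ G i) (hG i) (fun k => PF.coord _)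
  · refine SAP.eq_zero (PF.sum _ fun j _ => ?_)
    exact (PF_cof h a e l j).mul ((PF.coord (Sum.inr (Sigma.mk l j))).pow 2)
  · refine SAP.imp (SAP.const _) (SAP.forall_fin fun j => SAP.eq_zero ?_)
    exact (PF_cof h a e l j).mul (PF.coord (Sum.inr (Sigma.mk l j)))

variable {h : ∀ i, R i → MvPolynomial (κ i) ℚ} {N : ∀ i, Set (κ i → ℚ)} {W : ∀ i, Set (κ i → ℝ)}
  {T : Set (∀ i, R i → ℚ)}

/-- the coefficients vanish identically or nowhere -/
lemma cofR_sign (hP : ∀ i, Piece (h i) (N i) (W i)) (a : ∀ l, μ l → ℚ) (e : ∀ l, μ l → ∀ i, R i → ℕ)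
    (l : Λ) (j : μ l) {x y : ∀ i, κ i → ℝ} (hx : ∀ i, x i ∈ W i) (hy : ∀ i, y i ∈ W i)
    (h0 : cofR a e l j (vr h x) = 0) : cofR a e l j (vr h y) = 0 := by
  rcases mul_eq_zero.1 h0 with h1 | h1
  · rw [cofR, h1, zero_mul]
  · obtain ⟨i, -, h2⟩ := Finset.prod_eq_zero_iff.1 h1
    obtain ⟨r, -, h3⟩ := Finset.prod_eq_zero_iff.1 h2
    rw [cofR]
    refine mul_eq_zero_of_right _ (Finset.prod_eq_zero (Finset.mem_univ i)
      (Finset.prod_eq_zero (Finset.mem_univ r) ?_))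
    have h4 : e l j i r ≠ 0 := by
      intro h5
      rw [h5, pow_zero] at h3
      exact one_ne_zero h3
    have h5 : vr h x i r = 0 := pow_eq_zero_iff h4 |>.1 h3
    rcases (hP i).sign r with h6 | h6
    · exact absurd h5 (h6 _ (hx i))
    · have : vr h y i r = 0 := h6 _ (hy i)
      rw [this, zero_pow h4]

lemma cont_cofR (h : ∀ i, R i → MvPolynomial (κ i) ℚ) (a : ∀ l, μ l → ℚ) (e : ∀ l, μ l → ∀ i, R i → ℕ)
    (l : Λ) (j : μ l) : Continuous fun x : ∀ i, κ i → ℝ => cofR a e l j (vr h x) := by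
  refine continuous_const.mul (continuous_finsetProd _ fun i _ => continuous_finsetProd _ fun r _ =>
    Continuous.pow ?_ _)
  exact (continuous_aeval (h i r)).comp (continuous_apply i)

/-- **the inclusion of the models in the closure** -/
lemma Mod_sub (hP : ∀ i, Piece (h i) (N i) (W i)) (hT : Sat T) (a : ∀ l, μ l → ℚ)
    (e : ∀ l, μ l → ∀ i, R i → ℕ) {z : ∀ i, κ i → ℚ} (hzT : vq h z ∈ T) :
    Mod h a e (fun i => closure (rl (cls (h i) (N i) (z i))) ∩ W i)
      {l | Iso fun j => cof a e l j (vq h z)} ⊆ closure (rl (Tot h N T a e)) := by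
  classical
  intro w hw
  obtain ⟨hw1, hw2⟩ := hw
  -- approximation of the base point
  have h1 : ∀ i, ∃ s : ℕ → κ i → ℚ, (∀ n, s n ∈ cls (h i) (N i) (z i)) ∧
      Tendsto (fun n k => (s n k : ℝ)) atTop (𝓝 (xs w i)) := by
    intro i
    obtain ⟨v, hv, hv'⟩ := mem_closure_iff_seq_limit.1 (hw1 i).1
    choose s hs hs' using hv
    exact ⟨s, hs, hv'.congr fun n => hs' n⟩
  choose s hs hsl using h1
  set S : ℕ → ∀ i, κ i → ℚ := fun n i => s i n with hS
  have hSl : Tendsto (fun n i k => (S n i k : ℝ)) atTop (𝓝 (xs w)) :=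
    tendsto_pi_nhds.2 fun i => hsl i
  have hsim : ∀ n i r, Sim (vq h z i r) (vq h (S n) i r) := fun n i r => (hs i n).2 r
  have hSN : ∀ n i, S n i ∈ N i := fun n i => (hs i n).1
  have hSW : ∀ n i, (fun k => (S n i k : ℝ)) ∈ W i := fun n i => (hP i).sub _ (hSN n i)
  -- the coefficients
  set b : ℕ → ∀ l, μ l → ℚ := fun n l j => cof a e l j (vq h (S n)) with hb
  have hbR : ∀ n l j, (b n l j : ℝ) = cofR a e l j (vr h fun i k => (S n i k : ℝ)) := by
    intro n l j
    rw [hb]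
    simp only
    rw [← cofR_cast]
    congr 1
    funext i r
    exact (vr_cast h (S n) i r).symm
  set c : ∀ l, μ l → ℝ := fun l j => cofR a e l j (vr h (xs w)) with hc
  have hbl : ∀ l j, Tendsto (fun n => (b n l j : ℝ)) atTop (𝓝 (c l j)) := by
    intro l j
    simp only [hbR]
    exact ((cont_cofR h a e l j).tendsto _).comp hSl
  have hb0 : ∀ n l j, c l j = 0 → b n l j = 0 := by
    intro n l j h0
    have := cofR_sign hP a e l j (fun i => (hw1 i).2) (hSW n) h0
    rw [← hbR] at this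
    exact_mod_cast this
  -- the real zeros
  set v : ℕ → ∀ l, μ l → ℝ := fun n l j => if c l j = 0 then us w l j else
    us w l j * Real.sqrt (c l j / b n l j) with hv
  have hvl : ∀ l j, Tendsto (fun n => v n l j) atTop (𝓝 (us w l j)) := by
    intro l j
    by_cases h0 : c l j = 0
    · simp only [hv, h0, if_true]
      exact tendsto_const_nhds
    · simp only [hv, h0, if_false]
      have h2 : Tendsto (fun n => c l j / (b n l j : ℝ)) atTop (𝓝 (c l j / c l j)) :=
        tendsto_const_nhds.div (hbl l j) h0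
      rw [div_self h0] at h2
      have h3 := ((Real.continuous_sqrt.tendsto 1).comp h2).const_mul (us w l j)
      rw [Real.sqrt_one, mul_one] at h3
      exact h3
  have hvz : ∀ᶠ n in atTop, ∀ l, ∑ j, (b n l j : ℝ) * v n l j ^ 2 = 0 := by
    have h2 : ∀ᶠ n in atTop, ∀ l j, c l j ≠ 0 → 0 < c l j / (b n l j : ℝ) := by
      rw [Filter.eventually_all]
      intro l
      rw [Filter.eventually_all]
      intro j
      by_cases h0 : c l j = 0
      · exact Eventually.of_forall fun n h => absurd h0 h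
      · have h2 : Tendsto (fun n => c l j / (b n l j : ℝ)) atTop (𝓝 (c l j / c l j)) :=
          tendsto_const_nhds.div (hbl l j) h0
        rw [div_self h0] at h2
        filter_upwards [h2.eventually_const_lt zero_lt_one] with n hn _
        exact hn
    filter_upwards [h2] with n hn l
    rw [← (hw2 l).1]
    refine Finset.sum_congr rfl fun j _ => ?_
    by_cases h0 : c l j = 0
    · have h3 : cofR a e l j (vr h (xs w)) = 0 := h0
      rw [hb0 n l j h0, h3]
      push_cast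
      ring
    · have h3 := hn l j h0
      simp only [hv, h0, if_false]
      rw [mul_pow, Real.sq_sqrt h3.le]
      have h4 : (b n l j : ℝ) ≠ 0 := by
        intro h5
        rw [h5, div_zero] at h3
        exact lt_irrefl _ h3
      change (b n l j : ℝ) * (us w l j ^ 2 * (c l j / b n l j)) = c l j * us w l j ^ 2
      field_simp
  -- the conclusion
  have hcl : ∀ᶠ n in atTop, ∃ u : ∀ l, μ l → ℚ, (∀ l, ∑ j, b n l j * u l j ^ 2 = 0) ∧
      ∀ l j, |(u l j : ℝ) - v n l j| < 1 / ((n : ℝ) + 1) := by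
    filter_upwards [hvz] with n hn
    have h2 : ∀ l, ∃ u : μ l → ℚ, ∑ j, b n l j * u j ^ 2 = 0 ∧
        ∀ j, |(u j : ℝ) - v n l j| < 1 / ((n : ℝ) + 1) := by
      intro l
      refine diag_dense (b n l) (v n l) (hn l) ?_ (by positivity)
      by_cases hl : l ∈ {l | Iso fun j => cof a e l j (vq h z)}
      · left
        exact Iso.sim (fun j => cof_sim a e l j (hsim n)) hl
      · right
        intro j
        have h3 := (hw2 l).2 hl j
        rcases mul_eq_zero.1 h3 with h4 | h4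
        · rw [hb0 n l j h4]
          push_cast
          ring
        · have : v n l j = 0 := by
            simp only [hv, h4]
            split_ifs
            · rfl
            · ring
          rw [this, mul_zero]
    choose u hu1 hu2 using h2
    exact ⟨u, hu1, hu2⟩
  obtain ⟨n₀, hn₀⟩ := Filter.eventually_atTop.1 hcl
  choose u hu1 hu2 using fun n : ℕ => hn₀ (n + n₀) (Nat.le_add_left _ _)
  refine mem_closure_of_tendsto (b := atTop) (f := fun n : ℕ => (fun t =>
    ((Sum.elim (fun p : Σ i, κ i => S (n + n₀) p.1 p.2) (fun p : Σ l, μ l => u n p.1 p.2) t : ℚ) : ℝ))) ?_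
    (Eventually.of_forall fun n => ?_)
  · rw [tendsto_pi_nhds]
    rintro (⟨i, k⟩ | ⟨l, j⟩)
    · have h2 := (tendsto_pi_nhds.1 (tendsto_pi_nhds.1 hSl i) k).comp (tendsto_add_atTop_nat n₀)
      exact h2
    · have h2 := (hvl l j).comp (tendsto_add_atTop_nat n₀)
      have h3 : Tendsto (fun n : ℕ => (1 : ℝ) / (((n + n₀ : ℕ) : ℝ) + 1)) atTop (𝓝 0) :=
        (tendsto_one_div_add_atTop_nhds_zero_nat (𝕜 := ℝ)).comp (tendsto_add_atTop_nat n₀)
      have h4 : Tendsto (fun n : ℕ => (u n l j : ℝ) - v (n + n₀) l j) atTop (𝓝 0) := by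
        refine squeeze_zero_norm (fun n => ?_) h3
        rw [Real.norm_eq_abs]
        have := hu2 n l j
        exact this.le
      have h5 := h4.add h2
      rw [zero_add] at h5
      refine h5.congr fun n => ?_
      simp
  · refine mem_rl ⟨fun i => ?_, ?_, fun l => ?_⟩
    · exact hSN (n + n₀) i
    · exact hT _ hzT _ fun i r => hsim (n + n₀) i r
    · exact hu1 n l

/-- **The square class principle for pieces.** -/
theorem Tot_SA_piece (hP : ∀ i, Piece (h i) (N i) (W i)) (hT : Sat T) (a : ∀ l, μ l → ℚ)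
    (e : ∀ l, μ l → ∀ i, R i → ℕ) : SA (closure (rl (Tot h N T a e))) := by
  classical
  set good : Set ((∀ i, Set (κ i → ℝ)) × Set Λ) := {p | ∃ z : ∀ i, κ i → ℚ, (∀ i, z i ∈ N i) ∧
    vq h z ∈ T ∧ p = (fun i => closure (rl (cls (h i) (N i) (z i))) ∩ W i,
      {l | Iso fun j => cof a e l j (vq h z)})} with hgood
  have hfin : good.Finite := by
    have h1 : ((Set.pi univ fun i => {V : Set (κ i → ℝ) | V ⊆ W i ∧ LC (W i) V}) ×ˢ
        (univ : Set (Set Λ))).Finite :=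
      (Set.Finite.pi fun i => fc_sa (κ i) (W i) (hP i).sa).prod Set.finite_univ
    refine h1.subset ?_
    rintro _ ⟨z, hz, -, rfl⟩
    refine ⟨fun i _ => ⟨inter_subset_right, (hP i).lc (hz i)⟩, mem_univ _⟩
  have hSA : ∀ p ∈ good, SA (Mod h a e p.1 p.2) := by
    rintro _ ⟨z, hz, -, rfl⟩
    refine Mod_SA h a e (fun i => ?_) _
    exact sa_of_lc (κ i) (W i) _ (hP i).sa inter_subset_right ((hP i).lc (hz i))
  have hU : SA (⋃ p ∈ good, Mod h a e p.1 p.2) := by
    refine SAP.congr (q := fun w => w ∈ ⋃ p ∈ good, Mod h a e p.1 p.2)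
      (SAP.exists_mem hfin.toFinset (p := fun p w => w ∈ Mod h a e p.1 p.2)
      fun p hp => hSA p (by simpa using hp)) fun w => ?_
    simp only [mem_iUnion, Set.Finite.mem_toFinset, exists_prop]
  have hcl : closure (rl (Tot h N T a e)) = closure (⋃ p ∈ good, Mod h a e p.1 p.2) := by
    apply Subset.antisymm
    · apply closure_mono
      rintro _ ⟨w, ⟨hw1, hw2, hw3⟩, rfl⟩
      rw [mem_iUnion₂]
      refine ⟨_, ⟨xs w, hw1, hw2, rfl⟩, fun i => ⟨subset_closure ?_, ?_⟩, fun l => ?_⟩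
      · exact mem_rl ⟨hw1 i, fun r => Sim.refl _⟩
      · exact (hP i).sub _ (hw1 i)
      · have e1 : ∀ j, cofR a e l j (vr h (xs fun t => (w t : ℝ))) =
            ((cof a e l j (vq h (xs w)) : ℚ) : ℝ) := by
          intro j
          rw [← cofR_cast]
          congr 1
          funext i r
          exact vr_cast h (xs w) i r
        refine ⟨?_, fun hl j => ?_⟩
        · have h2 := hw3 l
          have h3 : ((∑ j, cof a e l j (vq h (xs w)) * us w l j ^ 2 : ℚ) : ℝ) = 0 := by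
            rw [h2]
            norm_num
          rw [← h3]
          push_cast
          refine Finset.sum_congr rfl fun j _ => ?_
          rw [e1]
          rfl
        · have h2 : ∀ j, cof a e l j (vq h (xs w)) * us w l j = 0 := by
            by_contra hcon
            push Not at hcon
            exact hl ⟨us w l, hw3 l, hcon⟩
          have h3 : ((cof a e l j (vq h (xs w)) * us w l j : ℚ) : ℝ) = 0 := by
            rw [h2]
            norm_num
          rw [e1, ← h3]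
          push_cast
          rfl
    · refine closure_minimal (iUnion₂_subset fun p hp => ?_) isClosed_closure
      obtain ⟨z, -, hzT, rfl⟩ := hp
      exact Mod_sub hP hT a e hzT
  rw [hcl]
  exact SA.closure hU

/-- finite unions of pieces -/
def Adm {κ R : Type} (h : R → MvPolynomial κ ℚ) (N : Set (κ → ℚ)) : Prop :=
  ∃ (A : Type) (_ : Finite A) (N' : A → Set (κ → ℚ)) (W : A → Set (κ → ℝ)),
    N = ⋃ α, N' α ∧ ∀ α, Piece h (N' α) (W α)

lemma rl_iUnion {n α : Type} (S : α → Set (n → ℚ)) : rl (⋃ a, S a) = ⋃ a, rl (S a) := by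
  ext x
  simp only [rl, mem_iUnion, Set.mem_ofPred_eq]
  constructor
  · rintro ⟨r, ⟨a, ha⟩, rfl⟩
    exact ⟨a, r, ha, rfl⟩
  · rintro ⟨a, r, ha, rfl⟩
    exact ⟨r, ⟨a, ha⟩, rfl⟩

/-- **The square class principle.** -/
theorem Tot_SA (hA : ∀ i, Adm (h i) (N i)) (hT : Sat T) (a : ∀ l, μ l → ℚ)
    (e : ∀ l, μ l → ∀ i, R i → ℕ) : SA (closure (rl (Tot h N T a e))) := by
  classical
  choose A hAf N' W hN hP using hA
  have hTot : Tot h N T a e = ⋃ α : (∀ i, A i), Tot h (fun i => N' i (α i)) T a e := by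
    ext w
    simp only [Tot, mem_iUnion, Set.mem_ofPred_eq]
    constructor
    · rintro ⟨h1, h2, h3⟩
      have h4 : ∀ i, ∃ α, xs w i ∈ N' i α := by
        intro i
        have := h1 i
        rw [hN i, mem_iUnion] at this
        exact this
      choose α hα using h4
      exact ⟨α, hα, h2, h3⟩
    · rintro ⟨α, h1, h2, h3⟩
      refine ⟨fun i => ?_, h2, h3⟩
      rw [hN i, mem_iUnion]
      exact ⟨_, h1 i⟩
  rw [hTot, rl_iUnion, closure_iUnion_of_finite]
  have h1 : ∀ α : (∀ i, A i), SAP fun w => w ∈ closure (rl (Tot h (fun i => N' i (α i)) T a e)) :=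
    fun α => Tot_SA_piece (fun i => hP i (α i)) hT a e
  refine SAP.congr (q := fun w => w ∈ ⋃ α : (∀ i, A i),
    closure (rl (Tot h (fun i => N' i (α i)) T a e))) (SAP.exists_fin h1) fun w => ?_
  rw [mem_iUnion]

end main

end Pool.Agent.J4H71.SC
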